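import Mathlib

/-!
# Real phase retrieval by projections: fewer than `2M-1` subspaces in every even dimension

For subspaces `W_1,...,W_N` of `ℝ^M` with orthogonal projections `P_n`, the family allows phase
retrieval if `‖P_n x‖ = ‖P_n y‖` for all `n` implies `x = y` or `x = -y`.

Main result: for every even `M ≥ 4`, `N_min(M) ≤ N_{M/2}(M) ≤ 2M - 2 < 2M - 1 = N_1(M)`.

Idea. Identify `ℝ^{2m}` with `ℂ^m`, the complex polynomials of degree `< m`. For a complex symmetric
unitary `S` the real linear map `z ↦ conj (S z)` is a symmetric involution whose fixed space has real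
dimension `m`. We use Hankel symmetric unitary matrices `S` whose entry `s_1` (the coefficient
attached to `X^1`) always has real part `1 - 1/m`. A pair violating phase retrieval would give two
nonzero polynomials `u, v` whose product is a real multiple of `X`, with `Re ⟨u,v⟩ ≠ 0`; but the only
factorisations of `X` are into monomials of different degrees, which are orthogonal.
Only `2(2m-1) = 2M-2` of these matrices are needed, by a linear span argument.
-/

open scoped InnerProductSpace ComplexConjugate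
open Polynomial

namespace Pool.Agent.Lib_helper96.PhaseRetrieval

section abstractJ
variable {E : Type*} [NormedAddCommGroup E] [InnerProductSpace ℝ E] [FiniteDimensional ℝ E]

/-- fixed space of a real linear map -/
def fix (J : E →ₗ[ℝ] E) : Submodule ℝ E := LinearMap.ker (J - LinearMap.id)

omit [FiniteDimensional ℝ E] in
lemma mem_fix (J : E →ₗ[ℝ] E) (x : E) : x ∈ fix J ↔ J x = x := by
  simp [fix, LinearMap.mem_ker, sub_eq_zero]

lemma proj_fix (J : E →ₗ[ℝ] E) (h2 : ∀ x, J (J x) = x) (hs : ∀ x y, ⟪J x, y⟫_ℝ = ⟪x, J y⟫_ℝ)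
    (x : E) : (fix J).starProjection x = (1/2 : ℝ) • (x + J x) := by
  apply Submodule.eq_starProjection_of_mem_of_inner_eq_zero
  · rw [mem_fix, map_smul, map_add, h2, add_comm]
  · intro w hw
    rw [mem_fix] at hw
    have : x - (1/2 : ℝ) • (x + J x) = (1/2 : ℝ) • (x - J x) := by
      module
    rw [this, inner_smul_left, inner_sub_left, hs, hw]
    simp

lemma norm_proj_fix (J : E →ₗ[ℝ] E) (h2 : ∀ x, J (J x) = x) (hs : ∀ x y, ⟪J x, y⟫_ℝ = ⟪x, J y⟫_ℝ)
    (x : E) : ‖(fix J).starProjection x‖ ^ 2 = (⟪x, x⟫_ℝ + ⟪J x, x⟫_ℝ) / 2 := by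
  rw [proj_fix J h2 hs, ← real_inner_self_eq_norm_sq, inner_smul_left, inner_smul_right,
    inner_add_left, inner_add_right, inner_add_right, hs x (J x), h2, ← hs x x]
  simp
  ring

lemma polar (J : E →ₗ[ℝ] E) (h2 : ∀ x, J (J x) = x) (hs : ∀ x y, ⟪J x, y⟫_ℝ = ⟪x, J y⟫_ℝ)
    (x y : E) (h : ‖(fix J).starProjection x‖ = ‖(fix J).starProjection y‖) :
    ⟪J (x + y), x - y⟫_ℝ = - ⟪x + y, x - y⟫_ℝ := by
  have h1 := norm_proj_fix J h2 hs x
  have h3 := norm_proj_fix J h2 hs y
  rw [h] at h1
  have h4 : ⟪J x, x⟫_ℝ + ⟪x, x⟫_ℝ = ⟪J y, y⟫_ℝ + ⟪y, y⟫_ℝ := by linarith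
  have h5 : ⟪J x, y⟫_ℝ = ⟪J y, x⟫_ℝ := by rw [hs, real_inner_comm]
  rw [map_add, inner_add_left, inner_sub_right, inner_sub_right, inner_add_left, inner_sub_right,
    inner_sub_right, h5, real_inner_comm y x]
  linarith

/-- dimension of the fixed space when there is an anticommuting automorphism -/
lemma finrank_fix (J : E →ₗ[ℝ] E) (h2 : ∀ x, J (J x) = x) (I : E ≃ₗ[ℝ] E)
    (hI : ∀ x, J (I x) = - I (J x)) : 2 * Module.finrank ℝ (fix J) = Module.finrank ℝ E := by
  set K : Submodule ℝ E := LinearMap.ker (J + LinearMap.id) with hK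
  have memK : ∀ x, x ∈ K ↔ J x = -x := by
    intro x
    simp [hK, LinearMap.mem_ker, add_eq_zero_iff_eq_neg]
  have hc : IsCompl (fix J) K := by
    constructor
    · rw [Submodule.disjoint_def]
      intro x hx hx'
      rw [mem_fix] at hx
      rw [memK, hx] at hx'
      have h0 : (2 : ℝ) • x = 0 := by
        rw [two_smul]
        nth_rewrite 1 [hx']
        simp
      exact (smul_eq_zero.mp h0).resolve_left two_ne_zero
    · rw [codisjoint_iff, Submodule.eq_top_iff']
      intro x
      rw [Submodule.mem_sup]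
      refine ⟨(1/2 : ℝ) • (x + J x), ?_, (1/2 : ℝ) • (x - J x), ?_, ?_⟩
      · rw [mem_fix, map_smul, map_add, h2, add_comm]
      · rw [memK, map_smul, map_sub, h2]; module
      · module
  have hmap : (fix J).map (I : E →ₗ[ℝ] E) = K := by
    ext y
    rw [Submodule.mem_map]
    constructor
    · rintro ⟨x, hx, rfl⟩
      rw [mem_fix] at hx
      rw [memK]
      simp [hI, hx]
    · intro hy
      rw [memK] at hy
      refine ⟨I.symm y, ?_, by simp⟩
      rw [mem_fix]
      have := hI (I.symm y)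
      rw [LinearEquiv.apply_symm_apply, hy, neg_inj] at this
      apply I.injective
      rw [← this, LinearEquiv.apply_symm_apply]
  have h3 : Module.finrank ℝ K = Module.finrank ℝ (fix J) := by
    rw [← hmap]
    exact LinearEquiv.finrank_map_eq I _
  have := Submodule.finrank_add_eq_of_isCompl hc
  omega

end abstractJ

section model
variable {m : ℕ}

/-- The antilinear map `z ↦ conj (S z)` as a real linear map. -/
noncomputable def anti (S : Matrix (Fin m) (Fin m) ℂ) :
    EuclideanSpace ℂ (Fin m) →ₗ[ℝ] EuclideanSpace ℂ (Fin m) where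
  toFun z := WithLp.toLp 2 (fun j => conj (∑ k, S j k * z k))
  map_add' x y := by
    ext j
    simp [mul_add, Finset.sum_add_distrib]
  map_smul' c x := by
    ext j
    simp only [PiLp.smul_apply, RingHom.id_apply, Complex.real_smul, map_sum, map_mul,
      Complex.conj_ofReal, Finset.mul_sum]
    refine Finset.sum_congr rfl (fun k _ => by ring)

lemma anti_apply (S : Matrix (Fin m) (Fin m) ℂ) (z : EuclideanSpace ℂ (Fin m)) (j : Fin m) :
    anti S z j = conj (∑ k, S j k * z k) := rfl

lemma inner_anti (S : Matrix (Fin m) (Fin m) ℂ) (z w : EuclideanSpace ℂ (Fin m)) :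
    ⟪anti S z, w⟫_ℝ = (∑ j, ∑ k, S j k * z k * w j).re := by
  rw [PiLp.inner_apply, Complex.re_sum]
  refine Finset.sum_congr rfl (fun j _ => ?_)
  rw [anti_apply, Complex.inner, Complex.conj_conj, mul_comm, Finset.sum_mul]

lemma anti_symm (S : Matrix (Fin m) (Fin m) ℂ) (hS : S.transpose = S)
    (z w : EuclideanSpace ℂ (Fin m)) : ⟪anti S z, w⟫_ℝ = ⟪z, anti S w⟫_ℝ := by
  rw [real_inner_comm (anti S w) z, inner_anti, inner_anti, Finset.sum_comm]
  congr 1
  refine Finset.sum_congr rfl (fun j _ => Finset.sum_congr rfl (fun k _ => ?_))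
  have : S k j = S j k := by
    conv_lhs => rw [← hS]
    rfl
  rw [this]; ring

lemma anti_anti (S : Matrix (Fin m) (Fin m) ℂ) (hS : S.transpose = S) (hU : S * S.conjTranspose = 1)
    (z : EuclideanSpace ℂ (Fin m)) : anti S (anti S z) = z := by
  have hU' : S.conjTranspose * S = 1 := mul_eq_one_comm.mp hU
  ext j
  rw [anti_apply]
  simp only [anti_apply]
  have h1 : ∑ k, S j k * conj (∑ l, S k l * z l) = conj (∑ l, (∑ k, conj (S j k) * S k l) * z l) := by
    simp only [map_sum, map_mul, Complex.conj_conj, Finset.mul_sum, Finset.sum_mul]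
    rw [Finset.sum_comm]
    refine Finset.sum_congr rfl (fun l _ => Finset.sum_congr rfl (fun k _ => by ring))
  rw [h1, Complex.conj_conj]
  have h2 : ∀ l, ∑ k, conj (S j k) * S k l = (1 : Matrix (Fin m) (Fin m) ℂ) j l := by
    intro l
    rw [← hU', Matrix.mul_apply]
    refine Finset.sum_congr rfl (fun k _ => ?_)
    rw [Matrix.conjTranspose_apply]
    have : S k j = S j k := by
      conv_lhs => rw [← hS]
      rfl
    rw [this]; rfl
  simp only [h2, Matrix.one_apply]
  simp

/-- multiplication by `i` -/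
noncomputable def mulI : EuclideanSpace ℂ (Fin m) ≃ₗ[ℝ] EuclideanSpace ℂ (Fin m) where
  toFun z := Complex.I • z
  map_add' x y := smul_add _ _ _
  map_smul' c x := by
    simp only [RingHom.id_apply]
    rw [smul_comm]
  invFun z := (-Complex.I) • z
  left_inv z := by
    simp [smul_smul]
  right_inv z := by
    simp [smul_smul]

lemma anti_mulI (S : Matrix (Fin m) (Fin m) ℂ) (z : EuclideanSpace ℂ (Fin m)) :
    anti S (mulI z) = - mulI (anti S z) := by
  ext j
  have h1 : (mulI z : EuclideanSpace ℂ (Fin m)) = Complex.I • z := rfl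
  have h2 : (mulI (anti S z) : EuclideanSpace ℂ (Fin m)) = Complex.I • (anti S z) := rfl
  rw [h1, h2, anti_apply, PiLp.neg_apply, PiLp.smul_apply, anti_apply]
  simp only [PiLp.smul_apply, smul_eq_mul, map_sum, map_mul, Complex.conj_I, Finset.mul_sum,
    ← Finset.sum_neg_distrib]
  refine Finset.sum_congr rfl (fun k _ => by ring)

/-- transport of a real linear endomorphism along an isometry -/
noncomputable def conjJ {V E : Type*} [NormedAddCommGroup V] [InnerProductSpace ℝ V]
    [NormedAddCommGroup E] [InnerProductSpace ℝ E] (e : V ≃ₗᵢ[ℝ] E) (J : V →ₗ[ℝ] V) : E →ₗ[ℝ] E :=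
  (e.toLinearEquiv : V →ₗ[ℝ] E) ∘ₗ J ∘ₗ (e.symm.toLinearEquiv : E →ₗ[ℝ] V)

lemma conjJ_apply {V E : Type*} [NormedAddCommGroup V] [InnerProductSpace ℝ V]
    [NormedAddCommGroup E] [InnerProductSpace ℝ E] (e : V ≃ₗᵢ[ℝ] E) (J : V →ₗ[ℝ] V) (x : E) :
    conjJ e J x = e (J (e.symm x)) := rfl

lemma exists_isometry (m : ℕ) :
    Nonempty (EuclideanSpace ℂ (Fin m) ≃ₗᵢ[ℝ] EuclideanSpace ℝ (Fin (2 * m))) := by
  have h : Module.finrank ℝ (EuclideanSpace ℂ (Fin m)) = 2 * m := by
    have h1 := finrank_real_of_complex (EuclideanSpace ℂ (Fin m))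
    rw [finrank_euclideanSpace_fin] at h1
    exact h1
  exact ⟨((stdOrthonormalBasis ℝ (EuclideanSpace ℂ (Fin m))).reindex (finCongr h)).repr⟩

/-- The Hankel type generators. -/
noncomputable def gen (m : ℕ) (w c : ℂ) (l : ℕ) : ℂ :=
  conj w * w ^ l * ((if l = 1 then 1 else 0) + (if l = m + 1 then 1 else 0) - c)

/-- the involution `j ↦ 1 - j` mod `m` on `{0,…,m-1}` -/
def sg (hm : 2 ≤ m) (j : Fin m) : Fin m :=
  if h : (j : ℕ) ≤ 1 then ⟨1 - j, by omega⟩ else ⟨m + 1 - j, by omega⟩

lemma sg_inj (hm : 2 ≤ m) : Function.Injective (sg hm) := by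
  intro a b h
  unfold sg at h
  have ha := a.isLt
  have hb := b.isLt
  split_ifs at h with h1 h2 h2 <;> rw [Fin.mk.injEq] at h <;> ext <;> omega

lemma ind_eq (hm : 2 ≤ m) (j k : Fin m) :
    ((if (j : ℕ) + k = 1 then 1 else 0) + (if (j : ℕ) + k = m + 1 then 1 else 0) : ℂ)
      = if k = sg hm j then 1 else 0 := by
  have hj := j.isLt
  have hk := k.isLt
  by_cases h1 : (j : ℕ) ≤ 1
  · have h2 : ¬ ((j : ℕ) + k = m + 1) := by omega
    have h3 : sg hm j = ⟨1 - j, by omega⟩ := by unfold sg; rw [dif_pos h1]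
    have h4 : (k = sg hm j) ↔ ((j : ℕ) + k = 1) := by
      rw [h3, Fin.ext_iff]; simp only; omega
    simp only [h2, h4, if_false, add_zero]
  · have h2 : ¬ ((j : ℕ) + k = 1) := by omega
    have h3 : sg hm j = ⟨m + 1 - j, by omega⟩ := by unfold sg; rw [dif_neg h1]
    have h4 : (k = sg hm j) ↔ ((j : ℕ) + k = m + 1) := by
      rw [h3, Fin.ext_iff]; simp only; omega
    simp only [h2, h4, if_false, zero_add]

/-- the Hankel matrix with symbol `s`. -/
def hank (m : ℕ) (s : ℕ → ℂ) : Matrix (Fin m) (Fin m) ℂ := fun j k => s (j + k)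

lemma hank_symm (s : ℕ → ℂ) : (hank m s).transpose = hank m s := by
  ext j k
  simp [hank, add_comm]

lemma hank_gen_unitary (hm : 2 ≤ m) (w c : ℂ) (hw : w * conj w = 1)
    (hc : (m : ℂ) * (c * conj c) = c + conj c) :
    hank m (gen m w c) * (hank m (gen m w c)).conjTranspose = 1 := by
  have key : ∀ j k : Fin m, hank m (gen m w c) j k
      = conj w * w ^ (j : ℕ) * w ^ (k : ℕ) * ((if k = sg hm j then 1 else 0) - c) := by
    intro j k
    rw [← ind_eq hm j k]
    simp only [hank, gen, pow_add]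
    ring
  have hwp : ∀ n : ℕ, w ^ n * conj w ^ n = 1 := by
    intro n; rw [← mul_pow, hw, one_pow]
  ext j l
  rw [Matrix.mul_apply]
  simp only [Matrix.conjTranspose_apply, key]
  have : ∀ k : Fin m, conj w * w ^ (j : ℕ) * w ^ (k : ℕ) * ((if k = sg hm j then 1 else 0) - c) *
      star (conj w * w ^ (l : ℕ) * w ^ (k : ℕ) * ((if k = sg hm l then 1 else 0) - c))
      = w ^ (j : ℕ) * conj w ^ (l : ℕ) * ((if k = sg hm j then 1 else 0) *
        (if k = sg hm l then 1 else 0) - conj c * (if k = sg hm j then 1 else 0)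
          - c * (if k = sg hm l then 1 else 0) + c * conj c) := by
    intro k
    have e1 : star ((if k = sg hm l then 1 else 0 : ℂ)) = if k = sg hm l then 1 else 0 := by
      split_ifs <;> simp
    rw [star_mul', star_mul', star_mul', star_sub, e1]
    simp only [← starRingEnd_apply, map_pow, Complex.conj_conj]
    linear_combination (w ^ (j : ℕ) * conj w ^ (l : ℕ) *
      (((if k = sg hm j then 1 else 0) - c) * ((if k = sg hm l then 1 else 0) - conj c))) *
      (hw * (w ^ (k : ℕ) * conj w ^ (k : ℕ)) + hwp k)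
  simp only [this]
  rw [← Finset.mul_sum, Finset.sum_add_distrib, Finset.sum_sub_distrib, Finset.sum_sub_distrib,
    ← Finset.mul_sum, ← Finset.mul_sum]
  have s1 : ∑ k : Fin m, (if k = sg hm j then (1 : ℂ) else 0) = 1 := by simp
  have s2 : ∑ k : Fin m, (if k = sg hm l then (1 : ℂ) else 0) = 1 := by simp
  have s3 : ∑ k : Fin m, (if k = sg hm j then (1 : ℂ) else 0) * (if k = sg hm l then 1 else 0)
      = if j = l then 1 else 0 := by
    simp [(sg_inj hm).eq_iff, eq_comm]
  rw [s1, s2, s3]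
  simp only [Finset.sum_const, Finset.card_univ, Fintype.card_fin, nsmul_eq_mul]
  rw [hc, Matrix.one_apply]
  by_cases hjl : j = l
  · subst hjl
    simp only [if_true]
    rw [hwp]; ring
  · simp only [hjl, if_false]
    ring

/-- the polynomial with coefficients the coordinates of `u` -/
noncomputable def poly (u : Fin m → ℂ) : ℂ[X] := ∑ j : Fin m, C (u j) * X ^ (j : ℕ)

lemma poly_coeff (u : Fin m → ℂ) (j : Fin m) : (poly u).coeff j = u j := by
  simp only [poly, finsetSum_coeff, coeff_C_mul_X_pow]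
  rw [Finset.sum_eq_single j]
  · simp
  · intro b _ hb
    rw [if_neg]
    intro h
    exact hb (Fin.ext h.symm)
  · simp

lemma poly_eval (u : Fin m → ℂ) (w : ℂ) : (poly u).eval w = ∑ j : Fin m, u j * w ^ (j : ℕ) := by
  simp [poly, eval_finsetSum]

lemma poly_natDegree (u : Fin m → ℂ) (hm : 1 ≤ m) : (poly u).natDegree ≤ m - 1 := by
  apply natDegree_sum_le_of_forall_le
  intro j _
  have := j.isLt
  exact (natDegree_C_mul_X_pow_le _ _).trans (by omega)

lemma poly_mul_coeff (u v : Fin m → ℂ) (l : ℕ) :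
    (poly u * poly v).coeff l = ∑ j : Fin m, ∑ k : Fin m, (if (j : ℕ) + k = l then u j * v k else 0) := by
  simp only [poly, Finset.sum_mul_sum, finsetSum_coeff]
  refine Finset.sum_congr rfl (fun j _ => Finset.sum_congr rfl (fun k _ => ?_))
  have : C (u j) * X ^ (j : ℕ) * (C (v k) * X ^ (k : ℕ)) = C (u j * v k) * X ^ ((j : ℕ) + k) := by
    rw [C_mul, pow_add]; ring
  rw [this, coeff_C_mul_X_pow]
  simp [eq_comm]

/-- the value of the generator forms in terms of the product polynomial -/
lemma form_gen (w c : ℂ) (hw : w * conj w = 1) (u v : Fin m → ℂ) :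
    ∑ j : Fin m, ∑ k : Fin m, gen m w c (j + k) * u k * v j
      = (poly u * poly v).coeff 1 + w ^ m * (poly u * poly v).coeff (m + 1)
        - c * (conj w * (poly u * poly v).eval w) := by
  rw [poly_mul_coeff, poly_mul_coeff, eval_mul, poly_eval, poly_eval, Finset.sum_mul_sum,
    Finset.mul_sum, Finset.mul_sum, Finset.mul_sum, ← Finset.sum_add_distrib,
    ← Finset.sum_sub_distrib, Finset.sum_comm]
  refine Finset.sum_congr rfl (fun j _ => ?_)
  rw [Finset.mul_sum, Finset.mul_sum, Finset.mul_sum, ← Finset.sum_add_distrib,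
    ← Finset.sum_sub_distrib]
  refine Finset.sum_congr rfl (fun k _ => ?_)
  have e1 : ∀ n : ℕ, conj w * w ^ (n + 1) = w ^ n := by
    intro n
    rw [pow_succ]
    linear_combination w ^ n * hw
  unfold gen
  rw [show (k : ℕ) + j = j + k by omega]
  by_cases h1 : (j : ℕ) + k = 1
  · have h2 : ¬ ((1 : ℕ) = m + 1) ∨ m = 0 := by omega
    rcases h2 with h2 | h2
    · rw [h1]
      simp only [if_true, h2, if_false, pow_one]
      have := hw
      have h3 : w ^ (j : ℕ) * w ^ (k : ℕ) = w := by rw [← pow_add, h1, pow_one]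
      linear_combination (u j * v k) * hw + c * conj w * u j * v k * h3
    · exact absurd j.isLt (by omega)
  · by_cases h2 : (j : ℕ) + k = m + 1
    · rw [h2]
      have h4 : ¬ (m + 1 = 1) := by
        intro h; exact h1 (by omega)
      have h3 : w ^ (j : ℕ) * w ^ (k : ℕ) = w ^ (m + 1) := by rw [← pow_add, h2]
      simp only [if_true, h4, if_false]
      have h5 := e1 m
      linear_combination (u j * v k) * h5 + c * conj w * u j * v k * h3
    · simp only [h1, h2, if_false]
      have h3 : w ^ (j : ℕ) * w ^ (k : ℕ) = w ^ ((j : ℕ) + k) := by rw [← pow_add]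
      linear_combination c * conj w * u j * v k * h3

lemma circle_infinite : {w : ℂ | w * conj w = 1}.Infinite := by
  have hne : ∀ n : ℕ, ((n : ℂ) - Complex.I) ≠ 0 := by
    intro n h
    have := congrArg Complex.im h
    simp at this
  have hne' : ∀ n : ℕ, ((n : ℂ) + Complex.I) ≠ 0 := by
    intro n h
    have := congrArg Complex.im h
    simp at this
  apply Set.infinite_of_injective_forall_mem (f := fun n : ℕ => ((n : ℂ) + Complex.I) / ((n : ℂ) - Complex.I))
  · intro a b h
    simp only at h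
    rw [div_eq_div_iff (hne a) (hne b)] at h
    have h2 : Complex.I * ((b : ℂ) - a) = 0 := by linear_combination (1/2 : ℂ) * h
    rcases mul_eq_zero.mp h2 with h3 | h3
    · exact absurd h3 Complex.I_ne_zero
    · have : (b : ℂ) = a := sub_eq_zero.mp h3
      exact_mod_cast this.symm
  · intro n
    simp only [Set.mem_ofPred_eq, map_div₀, map_add, map_sub, Complex.conj_natCast, Complex.conj_I,
      sub_neg_eq_add]
    rw [← sub_eq_add_neg, div_mul_div_comm, mul_comm ((n : ℂ) + Complex.I), div_self]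
    exact mul_ne_zero (hne n) (hne' n)

lemma Q_shape (hm : 2 ≤ m) (Q : ℂ[X]) (hQ : Q.natDegree ≤ 2 * m - 2) (t : ℝ)
    (h : ∀ w : ℂ, w * conj w = 1 →
      (Q.coeff 1 + w ^ m * Q.coeff (m + 1) - (1 - Complex.I) / m * (conj w * Q.eval w)).re = t ∧
      (Q.coeff 1 + w ^ m * Q.coeff (m + 1) - (1 + Complex.I) / m * (conj w * Q.eval w)).re = t) :
    Q = C (Q.coeff 1) * X ∧ (Q.coeff 1).im = 0 ∧ (Q.coeff 1).re * (1 - 1 / m) = t := by
  have hm0 : (m : ℝ) ≠ 0 := by positivity
  have hmc : (m : ℂ) ≠ 0 := by exact_mod_cast hm0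
  have e1 : ∀ B : ℂ, ((1 - Complex.I) / m * B).re = (B.re + B.im) / m := by
    intro B
    have : (1 - Complex.I) / m * B = ((1 - Complex.I) * B) / ((m : ℝ) : ℂ) := by
      push_cast; ring
    rw [this, Complex.div_ofReal_re]
    simp
  have e2 : ∀ B : ℂ, ((1 + Complex.I) / m * B).re = (B.re - B.im) / m := by
    intro B
    have : (1 + Complex.I) / m * B = ((1 + Complex.I) * B) / ((m : ℝ) : ℂ) := by
      push_cast; ring
    rw [this, Complex.div_ofReal_re]
    simp [sub_eq_add_neg]
  have him : ∀ w : ℂ, w * conj w = 1 → (conj w * Q.eval w).im = 0 := by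
    intro w hw
    obtain ⟨h1, h2⟩ := h w hw
    rw [Complex.sub_re, e1] at h1
    rw [Complex.sub_re, e2] at h2
    have h3 : ((conj w * Q.eval w).re + (conj w * Q.eval w).im) / m
      = ((conj w * Q.eval w).re - (conj w * Q.eval w).im) / m := by linarith
    field_simp at h3
    linarith
  have hre : ∀ w : ℂ, w * conj w = 1 →
      (Q.coeff 1).re + (w ^ m * Q.coeff (m + 1)).re - (conj w * Q.eval w).re / m = t := by
    intro w hw
    obtain ⟨h1, h2⟩ := h w hw
    rw [Complex.sub_re, e1, him w hw, Complex.add_re, add_zero] at h1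
    exact h1
  -- the polynomial identity
  have hpoly : X ^ (2 * m - 4) * Q = reflect (2 * m - 2) (Q.map (starRingEnd ℂ)) := by
    apply Polynomial.eq_of_infinite_eval_eq
    apply circle_infinite.mono
    intro w hw
    simp only [Set.mem_ofPred_eq] at hw ⊢
    have hwc : conj w * w = 1 := by rw [mul_comm]; exact hw
    let _ : Invertible (conj w) := ⟨w, hw, hwc⟩
    have h1 := Polynomial.eval₂_reflect_mul_pow (RingHom.id ℂ) (conj w) (2 * m - 2)
      (Q.map (starRingEnd ℂ)) (by rw [natDegree_map]; exact hQ)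
    have h2 : (⅟(conj w) : ℂ) = w := rfl
    rw [h2] at h1
    have h3 : eval₂ (RingHom.id ℂ) (conj w) (Q.map (starRingEnd ℂ)) = conj (Q.eval w) := by
      rw [Polynomial.eval₂_id, Polynomial.eval_map, Polynomial.eval₂_hom]
    rw [h3, Polynomial.eval₂_id] at h1
    have h4 : conj w * Q.eval w = w * conj (Q.eval w) := by
      have := him w hw
      have h5 := Complex.conj_eq_iff_im.mpr this
      rw [map_mul, Complex.conj_conj] at h5
      exact h5.symm
    have hwp : w ^ (2 * m - 2) * conj w ^ (2 * m - 2) = 1 := by rw [← mul_pow, hw, one_pow]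
    have h6 : eval w (reflect (2 * m - 2) (Q.map (starRingEnd ℂ)))
        = w ^ (2 * m - 2) * conj (Q.eval w) := by
      rw [← h1]
      linear_combination (-(eval w (reflect (2 * m - 2) (Q.map (starRingEnd ℂ))))) * hwp
    rw [h6, eval_mul, eval_pow, eval_X]
    have h7 : w ^ (2 * m - 2) = w ^ (2 * m - 4) * w * w := by
      rw [← pow_succ, ← pow_succ]; congr 1; omega
    rw [h7]
    linear_combination (w ^ (2 * m - 4) * w) * h4 + (-(w ^ (2 * m - 4)) * Q.eval w) * hw
  have hcoef : ∀ i, (X ^ (2 * m - 4) * Q).coeff i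
      = conj (Q.coeff (revAt (2 * m - 2) i)) := by
    intro i; rw [hpoly, coeff_reflect, coeff_map]
  have hbig : ∀ l, 3 ≤ l → Q.coeff l = 0 := by
    intro l hl
    by_cases hl2 : l ≤ 2 * m - 2
    · have h1 := hcoef (2 * m - 2 - l)
      rw [revAt_le (by omega), coeff_X_pow_mul', if_neg (by omega)] at h1
      rw [show 2 * m - 2 - (2 * m - 2 - l) = l by omega] at h1
      exact (map_eq_zero (starRingEnd ℂ)).mp h1.symm
    · exact coeff_eq_zero_of_natDegree_lt (by omega)
  have h1c : Q.coeff 1 = conj (Q.coeff 1) := by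
    have h1 := hcoef (2 * m - 3)
    rw [revAt_le (by omega), coeff_X_pow_mul', if_pos (by omega)] at h1
    rw [show 2 * m - 3 - (2 * m - 4) = 1 by omega,
      show 2 * m - 2 - (2 * m - 3) = 1 by omega] at h1
    exact h1
  have h02 : Q.coeff 0 = conj (Q.coeff 2) := by
    have h1 := hcoef (2 * m - 4)
    rw [revAt_le (by omega), coeff_X_pow_mul', if_pos (by omega)] at h1
    rw [show 2 * m - 4 - (2 * m - 4) = 0 by omega,
      show 2 * m - 2 - (2 * m - 4) = 2 by omega] at h1
    exact h1
  have h1im : (Q.coeff 1).im = 0 := Complex.conj_eq_iff_im.mp h1c.symm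
  have hQ3 : Q = C (Q.coeff 0) + C (Q.coeff 1) * X + C (Q.coeff 2) * X ^ 2 := by
    ext n
    match n with
    | 0 => simp
    | 1 => simp [coeff_X, coeff_C, coeff_X_pow]
    | 2 => simp [coeff_X, coeff_C, coeff_X_pow]
    | (k+3) =>
      rw [hbig (k + 3) (by omega)]
      simp [coeff_X, coeff_C, coeff_X_pow]
  have heval : ∀ w : ℂ, Q.eval w = Q.coeff 0 + Q.coeff 1 * w + Q.coeff 2 * w ^ 2 := by
    intro w
    conv_lhs => rw [hQ3]
    simp
  have hm1 : Q.coeff (m + 1) = 0 := hbig _ (by omega)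
  -- evaluate at w = 1, -1, I
  have r1 := hre 1 (by simp)
  have r2 := hre (-1) (by simp)
  have r3 := hre Complex.I (by simp)
  rw [heval, hm1] at r1 r2 r3
  have q0r : (Q.coeff 0).re = (Q.coeff 2).re := by rw [h02]; simp
  have q0i : (Q.coeff 0).im = - (Q.coeff 2).im := by rw [h02]; simp
  simp at r1 r2 r3
  have hmpos : (0 : ℝ) < m := by positivity
  have k1 : (Q.coeff 0).re + (Q.coeff 1).re + (Q.coeff 2).re = m * ((Q.coeff 1).re - t) := by
    field_simp at r1; linarith
  have k2 : -(Q.coeff 2).re + ((Q.coeff 1).re + -(Q.coeff 0).re) = m * ((Q.coeff 1).re - t) := by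
    field_simp at r2; linarith
  have k3 : (Q.coeff 0).im + (Q.coeff 1).re + -(Q.coeff 2).im = m * ((Q.coeff 1).re - t) := by
    field_simp at r3; linarith
  have z2r : (Q.coeff 2).re = 0 := by linarith
  have z2i : (Q.coeff 2).im = 0 := by linarith
  have z2 : Q.coeff 2 = 0 := Complex.ext z2r z2i
  have z0 : Q.coeff 0 = 0 := by rw [h02, z2]; simp
  refine ⟨?_, h1im, ?_⟩
  · conv_lhs => rw [hQ3]
    rw [z0, z2]; simp
  · rw [z2r, z0] at k1
    simp at k1
    field_simp
    linarith

lemma core (hm : 2 ≤ m) (u v : Fin m → ℂ) (t : ℝ)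
    (h : ∀ w : ℂ, w * conj w = 1 →
      (∑ j : Fin m, ∑ k : Fin m, gen m w ((1 - Complex.I) / m) (j + k) * u k * v j).re = t ∧
      (∑ j : Fin m, ∑ k : Fin m, gen m w ((1 + Complex.I) / m) (j + k) * u k * v j).re = t)
    (hin : (∑ j : Fin m, conj (u j) * v j).re = - t) : u = 0 ∨ v = 0 := by
  have hdeg : (poly u * poly v).natDegree ≤ 2 * m - 2 := by
    refine natDegree_mul_le.trans ?_
    have h1 := poly_natDegree u (by omega)
    have h2 := poly_natDegree v (by omega)
    omega
  have hz : ∀ u : Fin m → ℂ, poly u = 0 → u = 0 := by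
    intro u hu
    ext j
    rw [← poly_coeff u j, hu]; simp
  obtain ⟨hQ, him, hre⟩ := Q_shape hm (poly u * poly v) hdeg t (by
    intro w hw
    obtain ⟨h1, h2⟩ := h w hw
    rw [form_gen w _ hw] at h1 h2
    exact ⟨h1, h2⟩)
  by_cases hq : (poly u * poly v).coeff 1 = 0
  · rw [hq] at hQ
    simp only [map_zero, zero_mul] at hQ
    rcases mul_eq_zero.mp hQ with h1 | h1
    · exact Or.inl (hz u h1)
    · exact Or.inr (hz v h1)
  · exfalso
    set q := (poly u * poly v).coeff 1 with hqdef
    have hne : poly u * poly v ≠ 0 := by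
      intro h0; rw [h0] at hqdef; exact hq (by rw [hqdef]; simp)
    have hu0 : poly u ≠ 0 := left_ne_zero_of_mul hne
    have hv0 : poly v ≠ 0 := right_ne_zero_of_mul hne
    have hd : (poly u).natDegree + (poly v).natDegree = 1 := by
      rw [← natDegree_mul hu0 hv0, hQ, natDegree_C_mul_X q hq]
    -- the inner product vanishes
    have key : ∀ a b : Fin m → ℂ, poly a * poly b = C q * X → (poly a).natDegree = 0 →
        ∀ j : Fin m, a j = 0 ∨ b j = 0 := by
      intro a b hab ha j
      by_cases hj : (j : ℕ) = 0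
      · right
        rw [natDegree_eq_zero] at ha
        obtain ⟨r, hr⟩ := ha
        have h0 := congrArg (fun p => p.coeff 0) hab
        rw [← hr, coeff_C_mul, coeff_C_mul, coeff_X_zero, mul_zero] at h0
        have hr0 : r ≠ 0 := by
          intro h; rw [h] at hr
          rw [← hr] at hab
          simp only [map_zero, zero_mul] at hab
          have := congrArg (fun p => p.coeff 1) hab
          simp at this
          exact hq this.symm
        have := (mul_eq_zero.mp h0).resolve_left hr0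
        rw [← poly_coeff b j, hj]; exact this
      · left
        rw [← poly_coeff a j]
        exact coeff_eq_zero_of_natDegree_lt (by omega)
    have hor : ∀ j : Fin m, u j = 0 ∨ v j = 0 := by
      rcases Nat.eq_zero_or_pos (poly u).natDegree with h0 | h0
      · exact key u v hQ h0
      · have h1 : (poly v).natDegree = 0 := by omega
        intro j
        exact (key v u (by rw [mul_comm]; exact hQ) h1 j).symm
    have hsum : ∑ j : Fin m, conj (u j) * v j = 0 := by
      apply Finset.sum_eq_zero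
      intro j _
      rcases hor j with h1 | h1 <;> simp [h1]
    rw [hsum] at hin
    simp at hin
    rw [hin] at hre
    have hm1 : (1 - 1 / (m : ℝ)) ≠ 0 := by
      have : (2 : ℝ) ≤ m := by exact_mod_cast hm
      have h3 : 1 / (m : ℝ) ≤ 1 / 2 := one_div_le_one_div_of_le (by norm_num) this
      intro h; linarith
    have : q.re = 0 := (mul_eq_zero.mp hre).resolve_right hm1
    exact hq (Complex.ext this him)

/-- the two constants `(1 ∓ i)/m` -/
noncomputable def cc (m : ℕ) (b : Bool) : ℂ := if b then (1 - Complex.I) / m else (1 + Complex.I) / m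

lemma cc_eq (hm : 2 ≤ m) (b : Bool) : (m : ℂ) * (cc m b * conj (cc m b)) = cc m b + conj (cc m b) := by
  have hmc : (m : ℂ) ≠ 0 := by
    have : m ≠ 0 := by omega
    exact_mod_cast this
  cases b
  · simp only [cc, Bool.false_eq_true, if_false, map_div₀, map_add, map_one, Complex.conj_I,
      Complex.conj_natCast]
    field_simp
    linear_combination (-1 : ℂ) * Complex.I_sq
  · simp only [cc, if_true, map_div₀, map_sub, map_one, Complex.conj_I,
      Complex.conj_natCast]
    field_simp
    linear_combination (-1 : ℂ) * Complex.I_sq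

lemma cc_re (b : Bool) : (cc m b).re = 1 / m := by
  have e : ∀ z : ℂ, z / (m : ℂ) = z / ((m : ℝ) : ℂ) := by intro z; push_cast; rfl
  cases b
  · simp only [cc, Bool.false_eq_true, if_false]
    rw [e, Complex.div_ofReal_re]; simp
  · simp only [cc, if_true]
    rw [e, Complex.div_ofReal_re]; simp

/-- parameters -/
abbrev Par := {w : ℂ // w * conj w = 1} × Bool

/-- symbol attached to a parameter, as a vector -/
noncomputable def sym (m : ℕ) (p : Par) : Fin (2 * m - 1) → ℂ := fun l => gen m p.1 (cc m p.2) l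

/-- select `4m-2` parameters whose symbols span all symbols -/
lemma exists_select (hm : 2 ≤ m) : ∃ g : Fin (2 * (2 * m) - 2) → Par,
    ∀ p : Par, sym m p ∈ Submodule.span ℝ (Set.range (fun n => sym m (g n))) := by
  obtain ⟨f, hf, hspan, -⟩ :=
    Submodule.exists_fun_fin_finrank_span_eq ℝ (Set.range (sym m))
  have hrle : Module.finrank ℝ (Submodule.span ℝ (Set.range (sym m))) ≤ 2 * (2 * m) - 2 := by
    have h1 : Module.finrank ℝ (Submodule.span ℝ (Set.range (sym m)))
      ≤ Module.finrank ℝ (Fin (2 * m - 1) → ℂ) := Submodule.finrank_le _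
    have h2 : Module.finrank ℝ (Fin (2 * m - 1) → ℂ) = 2 * (2 * m - 1) := by
      have := finrank_real_of_complex (Fin (2 * m - 1) → ℂ)
      rw [this]; simp
    omega
  choose p hp using hf
  refine ⟨fun n => if h : (n : ℕ) < Module.finrank ℝ (Submodule.span ℝ (Set.range (sym m)))
    then p ⟨n, h⟩ else (⟨1, by simp⟩, true), fun q => ?_⟩
  have h1 : sym m q ∈ Submodule.span ℝ (Set.range f) := by
    rw [hspan]; exact Submodule.subset_span ⟨q, rfl⟩
  refine Submodule.span_mono ?_ h1
  rintro _ ⟨i, rfl⟩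
  refine ⟨⟨i, lt_of_lt_of_le i.isLt hrle⟩, ?_⟩
  simp only
  rw [dif_pos i.isLt]
  exact hp i

/-- the linear functional used to propagate the conditions -/
noncomputable def Phi (u v : Fin m → ℂ) (a : ℝ) : (Fin (2 * m - 1) → ℂ) →ₗ[ℝ] ℝ where
  toFun s := (∑ j : Fin m, ∑ k : Fin m, s ⟨j + k, by omega⟩ * u k * v j).re
    - a * (if h : 1 < 2 * m - 1 then (s ⟨1, h⟩).re else 0)
  map_add' s s' := by
    simp only [Pi.add_apply, add_mul, Finset.sum_add_distrib, Complex.add_re]
    split_ifs <;> ring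
  map_smul' c s := by
    have h1 : ∀ j k : Fin m, (c • s) ⟨j + k, by omega⟩ * u k * v j
        = (c : ℂ) * (s ⟨j + k, by omega⟩ * u k * v j) := by
      intro j k; simp [mul_assoc]
    have h2 : ∑ j : Fin m, ∑ k : Fin m, (c • s) ⟨j + k, by omega⟩ * u k * v j
        = (c : ℂ) * ∑ j : Fin m, ∑ k : Fin m, s ⟨j + k, by omega⟩ * u k * v j := by
      simp only [h1, ← Finset.mul_sum]
    rw [h2, Complex.re_ofReal_mul]
    simp only [RingHom.id_apply, smul_eq_mul, Pi.smul_apply, Complex.real_smul,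
      Complex.re_ofReal_mul]
    split_ifs <;> ring

lemma gen_one_re (w c : ℂ) (hw : w * conj w = 1) (hm : 2 ≤ m) :
    (gen m w c 1).re = 1 - c.re := by
  unfold gen
  have h : ¬ (1 = m + 1) := by omega
  simp only [if_true, h, if_false, pow_one, add_zero]
  rw [mul_comm (conj w) w, hw]; simp

lemma propagate (hm : 2 ≤ m) (u v : Fin m → ℂ) (t : ℝ) (g : Fin (2 * (2 * m) - 2) → Par)
    (hg : ∀ p : Par, sym m p ∈ Submodule.span ℝ (Set.range (fun n => sym m (g n))))
    (h : ∀ n, (∑ j : Fin m, ∑ k : Fin m, gen m (g n).1 (cc m (g n).2) (j + k) * u k * v j).re = t)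
    (p : Par) : (∑ j : Fin m, ∑ k : Fin m, gen m p.1 (cc m p.2) (j + k) * u k * v j).re = t := by
  have hm1 : (1 - 1 / (m : ℝ)) ≠ 0 := by
    have : (2 : ℝ) ≤ m := by exact_mod_cast hm
    have h3 : 1 / (m : ℝ) ≤ 1 / 2 := one_div_le_one_div_of_le (by norm_num) this
    intro h; linarith
  have hval : ∀ q : Par, Phi u v (t / (1 - 1 / m)) (sym m q)
      = (∑ j : Fin m, ∑ k : Fin m, gen m q.1 (cc m q.2) (j + k) * u k * v j).re - t := by
    intro q
    have h1 : 1 < 2 * m - 1 := by omega
    simp only [Phi, LinearMap.coe_mk, AddHom.coe_mk, sym, h1, dif_pos]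
    rw [gen_one_re _ _ q.1.2 hm, cc_re, div_mul_cancel₀ _ hm1]
  have hker : Submodule.span ℝ (Set.range (fun n => sym m (g n)))
      ≤ LinearMap.ker (Phi u v (t / (1 - 1 / m))) := by
    rw [Submodule.span_le]
    rintro _ ⟨n, rfl⟩
    simp only [SetLike.mem_coe, LinearMap.mem_ker]
    rw [hval, h n, sub_self]
  have := hker (hg p)
  rw [LinearMap.mem_ker, hval] at this
  linarith

theorem exists_family (hm : 2 ≤ m) :
    ∃ W : Fin (2 * (2 * m) - 2) → Submodule ℝ (EuclideanSpace ℝ (Fin (2 * m))),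
      (∀ n, Module.finrank ℝ (W n) = m) ∧ ∀ x y : EuclideanSpace ℝ (Fin (2 * m)),
        (∀ n, ‖(W n).starProjection x‖ = ‖(W n).starProjection y‖) → x = y ∨ x = -y := by
  obtain ⟨e⟩ := exists_isometry m
  obtain ⟨g, hg⟩ := exists_select hm
  set J : Par → (EuclideanSpace ℂ (Fin m) →ₗ[ℝ] EuclideanSpace ℂ (Fin m)) :=
    fun p => anti (hank m (gen m p.1 (cc m p.2))) with hJ
  have hJ2 : ∀ p z, J p (J p z) = z := fun p z =>
    anti_anti _ (hank_symm _) (hank_gen_unitary hm _ _ p.1.2 (cc_eq hm _)) z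
  have hJs : ∀ p z w, ⟪J p z, w⟫_ℝ = ⟪z, J p w⟫_ℝ := fun p z w => anti_symm _ (hank_symm _) z w
  have hE2 : ∀ p z, conjJ e (J p) (conjJ e (J p) z) = z := by
    intro p z
    simp only [conjJ_apply, LinearIsometryEquiv.symm_apply_apply, hJ2,
      LinearIsometryEquiv.apply_symm_apply]
  have hEs : ∀ p z w, ⟪conjJ e (J p) z, w⟫_ℝ = ⟪z, conjJ e (J p) w⟫_ℝ := by
    intro p z w
    simp only [conjJ_apply]
    rw [← LinearIsometryEquiv.inner_map_map e.symm, ← LinearIsometryEquiv.inner_map_map e.symm z]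
    simp only [LinearIsometryEquiv.symm_apply_apply, hJs]
  refine ⟨fun n => fix (conjJ e (J (g n))), fun n => ?_, fun x y h => ?_⟩
  · have h1 := finrank_fix (conjJ e (J (g n))) (hE2 (g n))
      ((e.symm.toLinearEquiv.trans mulI).trans e.toLinearEquiv) (by
        intro z
        have e1 : ∀ z, ((e.symm.toLinearEquiv.trans mulI).trans e.toLinearEquiv) z
          = e (mulI (e.symm z)) := fun z => rfl
        rw [e1, e1, conjJ_apply, conjJ_apply, LinearIsometryEquiv.symm_apply_apply,
          LinearIsometryEquiv.symm_apply_apply]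
        simp only [hJ]
        rw [anti_mulI, map_neg])
    rw [finrank_euclideanSpace_fin] at h1
    change Module.finrank ℝ (fix (conjJ e (J (g n)))) = m
    omega
  · set u := e.symm (x + y) with hu
    set v := e.symm (x - y) with hv
    have key : ∀ n, (∑ j : Fin m, ∑ k : Fin m, gen m (g n).1 (cc m (g n).2) (j + k) * u k * v j).re
        = - ⟪u, v⟫_ℝ := by
      intro n
      have h1 := polar (conjJ e (J (g n))) (hE2 (g n)) (hEs (g n)) x y (h n)
      rw [← LinearIsometryEquiv.inner_map_map e.symm, ← LinearIsometryEquiv.inner_map_map e.symm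
        (x + y), conjJ_apply, LinearIsometryEquiv.symm_apply_apply, ← hu, ← hv] at h1
      simp only [hJ] at h1
      rw [inner_anti] at h1
      exact h1
    have key2 := propagate hm u v (- ⟪u, v⟫_ℝ) g hg key
    have hin : (∑ j : Fin m, conj (u j) * v j).re = ⟪u, v⟫_ℝ := by
      rw [PiLp.inner_apply, Complex.re_sum]
      refine Finset.sum_congr rfl (fun j _ => ?_)
      rw [Complex.inner, mul_comm]
    rcases core hm u v (- ⟪u, v⟫_ℝ) (fun w hw => ⟨key2 (⟨w, hw⟩, true), key2 (⟨w, hw⟩, false)⟩)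
      (by rw [hin, neg_neg]) with h1 | h1
    · right
      have h2 : u = 0 := by ext j; exact congrFun h1 j
      rw [hu, LinearIsometryEquiv.map_eq_zero_iff] at h2
      exact eq_neg_of_add_eq_zero_left h2
    · left
      have h2 : v = 0 := by ext j; exact congrFun h1 j
      rw [hv, LinearIsometryEquiv.map_eq_zero_iff] at h2
      exact sub_eq_zero.mp h2

end model

section lines

lemma starProjection_eq_zero_of_inner {M : ℕ} (K : Submodule ℝ (EuclideanSpace ℝ (Fin M)))
    (φ x : EuclideanSpace ℝ (Fin M)) (hφ : ∀ w ∈ K, ∃ c : ℝ, c • φ = w) (h : ⟪φ, x⟫_ℝ = 0) :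
    K.starProjection x = 0 := by
  apply Submodule.eq_starProjection_of_mem_of_inner_eq_zero (zero_mem _)
  intro w hw
  obtain ⟨c, rfl⟩ := hφ w hw
  rw [sub_zero, inner_smul_right, real_inner_comm, h, mul_zero]

lemma exists_orth {M : ℕ} (hM : 1 ≤ M) (f : Fin (M - 1) → EuclideanSpace ℝ (Fin M)) :
    ∃ x : EuclideanSpace ℝ (Fin M), x ≠ 0 ∧ ∀ i, ⟪f i, x⟫_ℝ = 0 := by
  have h1 : Module.finrank ℝ (Submodule.span ℝ (Set.range f)) ≤ M - 1 := by
    have := finrank_range_le_card (R := ℝ) f
    simpa [Set.finrank] using this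
  have h2 : (Submodule.span ℝ (Set.range f))ᗮ ≠ ⊥ := by
    rw [Ne, Submodule.orthogonal_eq_bot_iff]
    intro h
    rw [h, finrank_top, finrank_euclideanSpace_fin] at h1
    omega
  obtain ⟨x, hx, hx0⟩ := Submodule.exists_mem_ne_zero_of_ne_bot h2
  refine ⟨x, hx0, fun i => ?_⟩
  rw [Submodule.mem_orthogonal] at hx
  exact hx _ (Submodule.subset_span ⟨i, rfl⟩)

theorem lines_lower {M N : ℕ} (hM : 1 ≤ M) (W : Fin N → Submodule ℝ (EuclideanSpace ℝ (Fin M)))
    (h1 : ∀ n, Module.finrank ℝ (W n) = 1) (hW : ∀ x y : EuclideanSpace ℝ (Fin M),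
      (∀ n, ‖(W n).starProjection x‖ = ‖(W n).starProjection y‖) → x = y ∨ x = -y) :
    2 * M - 1 ≤ N := by
  by_contra hN
  have hφ : ∀ n, ∃ φ : EuclideanSpace ℝ (Fin M), ∀ w ∈ W n, ∃ c : ℝ, c • φ = w := by
    intro n
    obtain ⟨v, -, hv⟩ := finrank_eq_one_iff'.mp (h1 n)
    refine ⟨v, fun w hw => ?_⟩
    obtain ⟨c, hc⟩ := hv ⟨w, hw⟩
    exact ⟨c, by rw [← Submodule.coe_smul, hc]⟩
  choose φ hφ using hφ
  obtain ⟨x, hx0, hx⟩ := exists_orth hM
    (fun i : Fin (M - 1) => if h : (i : ℕ) < N then φ ⟨i, h⟩ else 0)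
  obtain ⟨y, hy0, hy⟩ := exists_orth hM
    (fun i : Fin (M - 1) => if h : (i : ℕ) + (M - 1) < N then φ ⟨i + (M - 1), h⟩ else 0)
  have key : ∀ n, ‖(W n).starProjection (x + y)‖ = ‖(W n).starProjection (x - y)‖ := by
    intro n
    by_cases hn : (n : ℕ) < M - 1
    · have h3 := hx ⟨n, hn⟩
      simp only [n.isLt, dif_pos] at h3
      have h4 := starProjection_eq_zero_of_inner (W n) (φ n) x (hφ n) h3
      rw [map_add, map_sub, h4, zero_add, zero_sub, norm_neg]
    · have h3 := hy ⟨n - (M - 1), by omega⟩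
      have h5 : (n : ℕ) - (M - 1) + (M - 1) = n := by omega
      simp only [h5, n.isLt, dif_pos] at h3
      have h4 := starProjection_eq_zero_of_inner (W n) (φ n) y (hφ n) h3
      rw [map_add, map_sub, h4, add_zero, sub_zero]
  rcases hW _ _ key with h | h
  · apply hy0
    have h6 : (2 : ℝ) • y = 0 := by
      have : (2 : ℝ) • y = (x + y) - (x - y) := by module
      rw [this, h, sub_self]
    exact (smul_eq_zero.mp h6).resolve_left two_ne_zero
  · apply hx0
    have h6 : (2 : ℝ) • x = 0 := by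
      have : (2 : ℝ) • x = (x + y) + (x - y) := by module
      rw [this, h, neg_add_cancel]
    exact (smul_eq_zero.mp h6).resolve_left two_ne_zero

/-- moment vector -/
noncomputable def mom (M : ℕ) (t : ℝ) : EuclideanSpace ℝ (Fin M) := WithLp.toLp 2 (fun j => t ^ (j : ℕ))

lemma inner_mom (M : ℕ) (t : ℝ) (x : EuclideanSpace ℝ (Fin M)) :
    ⟪mom M t, x⟫_ℝ = (∑ j : Fin M, C (x j) * X ^ (j : ℕ) : ℝ[X]).eval t := by
  rw [PiLp.inner_apply]
  simp [mom, eval_finsetSum]

theorem lines_upper {M : ℕ} (hM : 1 ≤ M) :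
    ∃ W : Fin (2 * M - 1) → Submodule ℝ (EuclideanSpace ℝ (Fin M)),
      (∀ n, Module.finrank ℝ (W n) = 1) ∧ ∀ x y : EuclideanSpace ℝ (Fin M),
        (∀ n, ‖(W n).starProjection x‖ = ‖(W n).starProjection y‖) → x = y ∨ x = -y := by
  have hne : ∀ t, mom M t ≠ 0 := by
    intro t h
    have := congrArg (fun z : EuclideanSpace ℝ (Fin M) => z ⟨0, by omega⟩) h
    simp [mom] at this
  refine ⟨fun n => Submodule.span ℝ {mom M (n : ℕ)}, fun n => finrank_span_singleton (hne _), ?_⟩
  intro x y h
  have key : ∀ n : Fin (2 * M - 1), ⟪mom M (n : ℕ), x - y⟫_ℝ * ⟪mom M (n : ℕ), x + y⟫_ℝ = 0 := by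
    intro n
    have h1 := h n
    rw [Submodule.starProjection_singleton, Submodule.starProjection_singleton, norm_smul,
      norm_smul] at h1
    have h2 := mul_right_cancel₀ (norm_ne_zero_iff.mpr (hne _)) h1
    have h4 : (0 : ℝ) < ‖mom M ((n : ℕ) : ℝ)‖ ^ 2 := by
      have := norm_pos_iff.mpr (hne ((n : ℕ) : ℝ))
      positivity
    simp only [RCLike.ofReal_real_eq_id, id_eq, norm_div, norm_pow, Real.norm_eq_abs, abs_norm] at h2
    have h3 : |⟪mom M (n : ℕ), x⟫_ℝ| = |⟪mom M (n : ℕ), y⟫_ℝ| := by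
      rw [div_left_inj' h4.ne'] at h2
      exact h2
    have h5 := (sq_eq_sq_iff_abs_eq_abs _ _).mpr h3
    rw [inner_sub_right, inner_add_right]
    linear_combination h5
  set p : ℝ[X] := ∑ j : Fin M, C ((x - y) j) * X ^ (j : ℕ) with hp
  set q : ℝ[X] := ∑ j : Fin M, C ((x + y) j) * X ^ (j : ℕ) with hq
  have hdeg : ∀ z : EuclideanSpace ℝ (Fin M),
      (∑ j : Fin M, C (z j) * X ^ (j : ℕ) : ℝ[X]).natDegree ≤ M - 1 := by
    intro z
    apply natDegree_sum_le_of_forall_le
    intro j _
    exact (natDegree_C_mul_X_pow_le _ _).trans (by omega)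
  have hpq : p * q = 0 := by
    apply Polynomial.eq_zero_of_natDegree_lt_card_of_eval_eq_zero (p * q)
      (f := fun n : Fin (2 * M - 1) => (((n : ℕ) : ℝ)))
    · intro a b hab
      simp only [Nat.cast_inj] at hab
      exact Fin.ext hab
    · intro n
      rw [eval_mul, ← inner_mom, ← inner_mom]
      exact key n
    · rw [Fintype.card_fin]
      have := natDegree_mul_le (p := p) (q := q)
      have h1 := hdeg (x - y)
      have h2 := hdeg (x + y)
      rw [← hp] at h1
      rw [← hq] at h2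
      omega
  have hz : ∀ z : EuclideanSpace ℝ (Fin M),
      (∑ j : Fin M, C (z j) * X ^ (j : ℕ) : ℝ[X]) = 0 → z = 0 := by
    intro z hz
    ext j
    have := congrArg (fun r => r.coeff (j : ℕ)) hz
    simp only [finsetSum_coeff, coeff_C_mul_X_pow, coeff_zero] at this
    rw [Finset.sum_eq_single j] at this
    · simpa using this
    · intro b _ hb
      rw [if_neg]
      intro h
      exact hb (Fin.ext h.symm)
    · simp
  rcases mul_eq_zero.mp hpq with h1 | h1
  · left; exact sub_eq_zero.mp (hz _ h1)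
  · right; exact eq_neg_of_add_eq_zero_left (hz _ h1)

end lines

end Pool.Agent.Lib_helper96.PhaseRetrieval
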