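import Pool.Agent.Lib_helper60.DD.Defs

/-!
# MP_a2cbb7_co : block M1 (helper96): irregular_count, maximal_ineq, cover_sum, alpha_bound
-/

set_option autoImplicit false

namespace Pool.Agent.DD

open Finset Classical

noncomputable section

-- M0
theorem irregular_count (A : Finset ℂ) (hA : NC A) (c : ℝ) (x : ℂ) (hx : x ∈ A)
    (hD : (D A x : ℝ) ≤ (1/3 + c) * A.card) :
    (((A.erase x).filter (fun a => ¬ Reg A x a)).card : ℝ) ≤ 6 * c * A.card + 2 := by
  set S := A.erase x with hS
  set I := S.image (fun y => dist x y) with hI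
  have hcardS : (S.card : ℝ) = A.card - 1 := by
    have := Finset.card_erase_add_one hx
    have h2 : ((A.erase x).card : ℝ) + 1 = A.card := by exact_mod_cast this
    rw [hS]; linarith
  have hmap : ∀ y ∈ S, (fun y => dist x y) y ∈ I := fun y hy => Finset.mem_image_of_mem _ hy
  have h1 : (S.card : ℝ) = ∑ d ∈ I, ((S.filter (fun y => dist x y = d)).card : ℝ) := by
    have := Finset.card_eq_sum_card_fiberwise (s := S) (t := I) (f := fun y => dist x y)
      (by intro y hy; exact hmap y hy)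
    exact_mod_cast this
  have h2 : ((S.filter (fun a => ¬ Reg A x a)).card : ℝ) =
      ∑ d ∈ I, (((S.filter (fun a => ¬ Reg A x a)).filter (fun y => dist x y = d)).card : ℝ) := by
    have := Finset.card_eq_sum_card_fiberwise (s := S.filter (fun a => ¬ Reg A x a)) (t := I)
      (f := fun y => dist x y)
      (by intro y hy; exact hmap y (Finset.mem_filter.1 hy).1)
    exact_mod_cast this
  have hD' : (D A x : ℝ) = ∑ d ∈ I, (1 : ℝ) := by
    rw [Finset.sum_const, nsmul_eq_mul, mul_one]; rfl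
  have key : ∀ d ∈ I, ((S.filter (fun y => dist x y = d)).card : ℝ) / 3 +
      (((S.filter (fun a => ¬ Reg A x a)).filter (fun y => dist x y = d)).card : ℝ) / 6 ≤ 1 := by
    intro d hd
    obtain ⟨a, ha, rfl⟩ := Finset.mem_image.1 hd
    have hax : a ≠ x := (Finset.mem_erase.1 ha).1
    have hcls : S.filter (fun y => dist x y = dist x a) = cls A x a := by
      ext y
      simp only [Finset.mem_filter, hS, Finset.mem_erase, cls]
      constructor
      · rintro ⟨⟨-, hy⟩, hyd⟩
        exact ⟨hy, by rw [dist_comm y x, dist_comm a x]; exact hyd⟩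
      · rintro ⟨hy, hyd⟩
        refine ⟨⟨?_, hy⟩, by rw [dist_comm x y, dist_comm x a]; exact hyd⟩
        rintro rfl
        rw [dist_self] at hyd
        exact hax (dist_eq_zero.1 hyd.symm)
    have hle3 : (cls A x a).card ≤ 3 := hA x (dist a x)
    have hsub : ((S.filter (fun a => ¬ Reg A x a)).filter (fun y => dist x y = dist x a)) ⊆
        S.filter (fun y => dist x y = dist x a) := by
      intro y hy
      simp only [Finset.mem_filter] at hy ⊢
      exact ⟨hy.1.1, hy.2⟩
    by_cases hR : Reg A x a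
    · have hempty : ((S.filter (fun a => ¬ Reg A x a)).filter (fun y => dist x y = dist x a)) = ∅ := by
        rw [Finset.filter_eq_empty_iff]
        intro y hy hyd
        apply (Finset.mem_filter.1 hy).2
        unfold Reg at hR ⊢
        have : cls A x y = cls A x a := by
          unfold cls
          rw [dist_comm y x, hyd, dist_comm x a]
        rw [this]; exact hR
      rw [hempty, hcls]
      have : ((cls A x a).card : ℝ) ≤ 3 := by exact_mod_cast hle3
      simp; linarith
    · have hle2 : (cls A x a).card ≤ 2 := by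
        have : (cls A x a).card ≠ 3 := hR
        omega
      have h3 := Finset.card_le_card hsub
      rw [hcls] at h3 ⊢
      have h4 : ((cls A x a).card : ℝ) ≤ 2 := by exact_mod_cast hle2
      have h5 : (((S.filter (fun a => ¬ Reg A x a)).filter (fun y => dist x y = dist x a)).card : ℝ)
        ≤ (cls A x a).card := by exact_mod_cast h3
      linarith
  have hsum := Finset.sum_le_sum key
  rw [Finset.sum_add_distrib, ← Finset.sum_div, ← Finset.sum_div, ← h1, ← h2, ← hD'] at hsum
  linarith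

/-- code of the octant of a vector -/
def octc (u : ℂ) : Prop × Prop × Prop := (0 ≤ u.re, 0 ≤ u.im, |u.im| ≤ |u.re|)

theorem oct_alg (a b c d : ℝ) (hb : 0 ≤ b) (hba : b ≤ a) (hd : 0 ≤ d) (hdc : d ≤ c)
    (h : c ^ 2 + d ^ 2 ≤ a ^ 2 + b ^ 2) : c ^ 2 + d ^ 2 ≤ 2 * (a * c + b * d) := by
  have ha : 0 ≤ a := hb.trans hba
  have hc : 0 ≤ c := hd.trans hdc
  have h1 : 0 ≤ a * c + b * d := by positivity
  by_contra hcon
  push Not at hcon
  -- (ac+bd)^2 ≥ (ad-bc)^2
  have h2 : 0 ≤ (a * c + b * d) - (a * d - b * c) := by nlinarith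
  have h3 : 0 ≤ (a * c + b * d) + (a * d - b * c) := by nlinarith
  have h4 : (a * d - b * c) ^ 2 ≤ (a * c + b * d) ^ 2 := by
    apply sq_le_sq'
    · linarith
    · linarith
  have h5 : (a ^ 2 + b ^ 2) * (c ^ 2 + d ^ 2) ≤ 2 * (a * c + b * d) ^ 2 := by nlinarith
  have h6 : (c ^ 2 + d ^ 2) * (c ^ 2 + d ^ 2) ≤ (a ^ 2 + b ^ 2) * (c ^ 2 + d ^ 2) :=
    mul_le_mul_of_nonneg_right h (by positivity)
  have h7 : (2 * (a * c + b * d)) ^ 2 < (c ^ 2 + d ^ 2) ^ 2 := by
    apply sq_lt_sq'
    · linarith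
    · exact hcon
  nlinarith

theorem oct_norm_sq (u v : ℂ) (h : octc u = octc v) (hn : ‖v‖ ≤ ‖u‖) : ‖u - v‖ ≤ ‖u‖ := by
  have h1 : (0 ≤ u.re ↔ 0 ≤ v.re) := by
    have := congrArg (fun t => t.1) h; simpa [octc] using this
  have h2 : (0 ≤ u.im ↔ 0 ≤ v.im) := by
    have := congrArg (fun t => t.2.1) h; simpa [octc] using this
  have h3 : (|u.im| ≤ |u.re| ↔ |v.im| ≤ |v.re|) := by
    have := congrArg (fun t => t.2.2) h; simpa [octc] using this
  have hre : u.re * v.re = |u.re| * |v.re| := by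
    by_cases hu : 0 ≤ u.re
    · rw [abs_of_nonneg hu, abs_of_nonneg (h1.1 hu)]
    · have hv : ¬ 0 ≤ v.re := fun hv => hu (h1.2 hv)
      push Not at hu hv
      rw [abs_of_neg hu, abs_of_neg hv]; ring
  have him : u.im * v.im = |u.im| * |v.im| := by
    by_cases hu : 0 ≤ u.im
    · rw [abs_of_nonneg hu, abs_of_nonneg (h2.1 hu)]
    · have hv : ¬ 0 ≤ v.im := fun hv => hu (h2.2 hv)
      push Not at hu hv
      rw [abs_of_neg hu, abs_of_neg hv]; ring
  have hnu : ‖u‖ ^ 2 = |u.re| ^ 2 + |u.im| ^ 2 := by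
    rw [Complex.sq_norm, Complex.normSq_apply, sq_abs, sq_abs]; ring
  have hnv : ‖v‖ ^ 2 = |v.re| ^ 2 + |v.im| ^ 2 := by
    rw [Complex.sq_norm, Complex.normSq_apply, sq_abs, sq_abs]; ring
  have hnuv : ‖u - v‖ ^ 2 = ‖u‖ ^ 2 + ‖v‖ ^ 2 - 2 * (|u.re| * |v.re| + |u.im| * |v.im|) := by
    rw [← hre, ← him, Complex.sq_norm, Complex.sq_norm, Complex.sq_norm, Complex.normSq_apply,
      Complex.normSq_apply, Complex.normSq_apply]
    simp only [Complex.sub_re, Complex.sub_im]
    ring
  have hsq : ‖v‖ ^ 2 ≤ ‖u‖ ^ 2 := by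
    apply pow_le_pow_left₀ (norm_nonneg _) hn
  have key : ‖v‖ ^ 2 ≤ 2 * (|u.re| * |v.re| + |u.im| * |v.im|) := by
    rw [hnu, hnv] at hsq
    rw [hnv]
    by_cases hu : |u.im| ≤ |u.re|
    · exact oct_alg _ _ _ _ (abs_nonneg _) hu (abs_nonneg _) (h3.1 hu) hsq
    · have hv : ¬ |v.im| ≤ |v.re| := fun hv => hu (h3.2 hv)
      push Not at hu hv
      have := oct_alg |u.im| |u.re| |v.im| |v.re| (abs_nonneg _) hu.le (abs_nonneg _) hv.le
        (by linarith)
      linarith
  have : ‖u - v‖ ^ 2 ≤ ‖u‖ ^ 2 := by linarith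
  exact le_of_sq_le_sq this (norm_nonneg _)

theorem oct_dist (p x y : ℂ) (r : ℝ) (h : octc (p - x) = octc (p - y)) (hx : dist p x ≤ r)
    (hy : dist p y ≤ r) : dist x y ≤ r := by
  rw [dist_eq_norm] at hx hy
  rw [dist_eq_norm]
  rcases le_total ‖p - y‖ ‖p - x‖ with hle | hle
  · have := oct_norm_sq _ _ h hle
    have e : x - y = -((p - x) - (p - y)) := by ring
    rw [e, norm_neg]; exact this.trans hx
  · have := oct_norm_sq _ _ h.symm hle
    have e : x - y = (p - y) - (p - x) := by ring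
    rw [e]; exact this.trans hy

/-- greedy (Besicovitch type) selection -/
theorem greedy_sel (X : Finset ℂ) (r : ℂ → ℝ) (hr0 : ∀ x ∈ X, 0 ≤ r x) :
    ∃ G ⊆ X, (∀ x ∈ X, ∃ g ∈ G, dist x g ≤ r g) ∧
      ∀ g ∈ G, ∀ g' ∈ G, g ≠ g' → max (r g) (r g') < dist g g' := by
  induction' hn : X.card using Nat.strong_induction_on with n ih generalizing X
  rcases X.eq_empty_or_nonempty with rfl | hne
  · exact ⟨∅, by simp, by simp, by simp⟩
  · obtain ⟨m, hm, hmax⟩ := Finset.exists_max_image X r hne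
    have hr : 0 ≤ r m := hr0 m hm
    have hlt : (X.filter (fun y => r m < dist y m)).card < n := by
      rw [← hn]
      apply Finset.card_lt_card
      rw [Finset.ssubset_iff_of_subset (Finset.filter_subset _ _)]
      refine ⟨m, hm, ?_⟩
      rw [Finset.mem_filter, dist_self]
      rintro ⟨-, h⟩
      linarith
    obtain ⟨G, hGX, hcov, hsep⟩ := ih _ hlt (X.filter (fun y => r m < dist y m))
      (fun x hx => hr0 x (Finset.mem_filter.1 hx).1) rfl
    refine ⟨insert m G, ?_, ?_, ?_⟩
    · intro g hg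
      rcases Finset.mem_insert.1 hg with rfl | hg
      · exact hm
      · exact (Finset.mem_filter.1 (hGX hg)).1
    · intro x hx
      by_cases hd : dist x m ≤ r m
      · exact ⟨m, Finset.mem_insert_self _ _, hd⟩
      · push Not at hd
        obtain ⟨g, hg, hgd⟩ := hcov x (Finset.mem_filter.2 ⟨hx, hd⟩)
        exact ⟨g, Finset.mem_insert_of_mem hg, hgd⟩
    · intro g hg g' hg' hne'
      rcases Finset.mem_insert.1 hg with e | hg1
      · subst e
        rcases Finset.mem_insert.1 hg' with e' | hg2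
        · exact absurd e'.symm hne'
        · have h1 := Finset.mem_filter.1 (hGX hg2)
          rw [dist_comm]
          exact max_lt h1.2 (lt_of_le_of_lt (hmax g' h1.1) h1.2)
      · rcases Finset.mem_insert.1 hg' with e' | hg2
        · subst e'
          have h1 := Finset.mem_filter.1 (hGX hg1)
          exact max_lt (lt_of_le_of_lt (hmax g h1.1) h1.2) h1.2
        · exact hsep g hg1 g' hg2 hne'

-- M1
theorem maximal_ineq (A E : Finset ℂ) (hE : E ⊆ A) (η : ℝ) (hη : 0 < η) :
    ((E.filter (fun x => ∃ r : ℝ, 0 ≤ r ∧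
      ((E.filter (fun y => dist y x ≤ r)).card : ℝ) < η * M A x r)).card : ℝ) ≤ 8 * η * A.card := by
  set X := E.filter (fun x => ∃ r : ℝ, 0 ≤ r ∧
      ((E.filter (fun y => dist y x ≤ r)).card : ℝ) < η * M A x r) with hX
  have hch : ∀ x : ℂ, ∃ r : ℝ, x ∈ X → (0 ≤ r ∧
      ((E.filter (fun y => dist y x ≤ r)).card : ℝ) < η * M A x r) := by
    intro x
    by_cases hx : x ∈ X
    · obtain ⟨r, hr⟩ := (Finset.mem_filter.1 hx).2
      exact ⟨r, fun _ => hr⟩
    · exact ⟨0, fun h => absurd h hx⟩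
  choose r hr using hch
  obtain ⟨G, hGX, hcov, hsep⟩ := greedy_sel X r (fun x hx => (hr x hx).1)
  have h1 : (X.card : ℝ) ≤ ∑ g ∈ G, ((E.filter (fun y => dist y g ≤ r g)).card : ℝ) := by
    have hsub : X ⊆ G.biUnion (fun g => E.filter (fun y => dist y g ≤ r g)) := by
      intro x hx
      obtain ⟨g, hg, hgd⟩ := hcov x hx
      exact Finset.mem_biUnion.2 ⟨g, hg, Finset.mem_filter.2 ⟨(Finset.mem_filter.1 hx).1, hgd⟩⟩
    have h := (Finset.card_le_card hsub).trans Finset.card_biUnion_le
    exact_mod_cast h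
  have h2 : ∑ g ∈ G, ((E.filter (fun y => dist y g ≤ r g)).card : ℝ) ≤
      ∑ g ∈ G, η * (M A g (r g) : ℝ) :=
    Finset.sum_le_sum (fun g hg => (hr g (hGX hg)).2.le)
  have h3 : ∑ g ∈ G, (M A g (r g) : ℝ) ≤ 8 * A.card := by
    have e1 : ∑ g ∈ G, (M A g (r g)) = ∑ a ∈ A, (G.filter (fun g => dist a g ≤ r g)).card := by
      unfold M
      simp only [Finset.card_filter]
      exact Finset.sum_comm
    have e2 : ∀ a ∈ A, (G.filter (fun g => dist a g ≤ r g)).card ≤ 8 := by
      intro a ha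
      have hinj : Set.InjOn (fun g => octc (a - g)) (G.filter (fun g => dist a g ≤ r g)) := by
        intro g hg g' hg' heq
        by_contra hne
        have hg := Finset.mem_filter.1 hg
        have hg' := Finset.mem_filter.1 hg'
        have h := hsep g hg.1 g' hg'.1 hne
        have := oct_dist a g g' (max (r g) (r g')) heq (hg.2.trans (le_max_left _ _))
          (hg'.2.trans (le_max_right _ _))
        linarith
      have := Finset.card_le_card_of_injOn (t := (Finset.univ : Finset (Prop × Prop × Prop)))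
        (fun g => octc (a - g)) (fun g _ => Finset.mem_univ _) hinj
      simpa using this
    have e3 : ∑ g ∈ G, (M A g (r g)) ≤ 8 * A.card := by
      rw [e1]
      calc ∑ a ∈ A, (G.filter (fun g => dist a g ≤ r g)).card ≤ ∑ a ∈ A, 8 := Finset.sum_le_sum e2
        _ = 8 * A.card := by rw [Finset.sum_const, smul_eq_mul, mul_comm]
    exact_mod_cast e3
  calc (X.card : ℝ) ≤ ∑ g ∈ G, η * (M A g (r g) : ℝ) := h1.trans h2
    _ = η * ∑ g ∈ G, (M A g (r g) : ℝ) := by rw [Finset.mul_sum]
    _ ≤ η * (8 * A.card) := mul_le_mul_of_nonneg_left h3 hη.le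
    _ = 8 * η * A.card := by ring

-- M2
theorem cover_sum (S : Finset ℂ) (c : ℂ) (L s : ℝ) (hs : 0 < s) (hS : ∀ x ∈ S, dist x c ≤ L) :
    ∑ x ∈ S, (1:ℝ) / ((S.filter (fun y => dist y x ≤ s)).card : ℝ) ≤ (3 * L / s + 2) ^ 2 := by
  rcases S.eq_empty_or_nonempty with rfl | hne
  · simp; positivity
  have hL : 0 ≤ L := by
    obtain ⟨x, hx⟩ := hne
    exact dist_nonneg.trans (hS x hx)
  set t : ℝ := 7 / 10 * s with ht
  have ht0 : 0 < t := by positivity
  set N : ℕ := ⌊2 * L / t⌋₊ with hN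
  let φ : ℂ → ℕ × ℕ := fun x => (⌊(x.re - c.re + L) / t⌋₊, ⌊(x.im - c.im + L) / t⌋₊)
  have hmaps : ∀ x ∈ S, φ x ∈ (Finset.range (N + 1)) ×ˢ (Finset.range (N + 1)) := by
    intro x hx
    have h := hS x hx
    rw [dist_eq_norm] at h
    have h1 := (Complex.abs_re_le_norm (x - c)).trans h
    have h2 := (Complex.abs_im_le_norm (x - c)).trans h
    rw [Complex.sub_re, abs_le] at h1
    rw [Complex.sub_im, abs_le] at h2
    rw [Finset.mem_product, Finset.mem_range, Finset.mem_range, Nat.lt_succ_iff, Nat.lt_succ_iff]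
    refine ⟨Nat.floor_le_floor ?_, Nat.floor_le_floor ?_⟩ <;>
    · apply div_le_div_of_nonneg_right _ ht0.le
      linarith
  have hclose : ∀ x ∈ S, ∀ y ∈ S, φ x = φ y → dist y x ≤ s := by
    intro x hx y hy hxy
    have h1 : ⌊(x.re - c.re + L) / t⌋₊ = ⌊(y.re - c.re + L) / t⌋₊ := congrArg Prod.fst hxy
    have h2 : ⌊(x.im - c.im + L) / t⌋₊ = ⌊(y.im - c.im + L) / t⌋₊ := congrArg Prod.snd hxy
    have aux : ∀ u v : ℝ, 0 ≤ u → 0 ≤ v → ⌊u / t⌋₊ = ⌊v / t⌋₊ → |v - u| ≤ t := by
      intro u v hu hv h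
      have a1 := Nat.floor_le (div_nonneg hu ht0.le)
      have a2 := Nat.lt_floor_add_one (u / t)
      have b1 := Nat.floor_le (div_nonneg hv ht0.le)
      have b2 := Nat.lt_floor_add_one (v / t)
      rw [h] at a1 a2
      have c1 : v / t - u / t < 1 := by linarith
      have c2 : u / t - v / t < 1 := by linarith
      rw [← sub_div, div_lt_one ht0] at c1 c2
      rw [abs_le]; constructor <;> linarith
    have hbd : ∀ z ∈ S, 0 ≤ z.re - c.re + L ∧ 0 ≤ z.im - c.im + L := by
      intro z hz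
      have h := hS z hz
      rw [dist_eq_norm] at h
      have h1 := (Complex.abs_re_le_norm (z - c)).trans h
      have h2 := (Complex.abs_im_le_norm (z - c)).trans h
      rw [Complex.sub_re, abs_le] at h1
      rw [Complex.sub_im, abs_le] at h2
      constructor <;> linarith
    have k1 := aux _ _ (hbd x hx).1 (hbd y hy).1 h1
    have k2 := aux _ _ (hbd x hx).2 (hbd y hy).2 h2
    have k1' : |(y - x).re| ≤ t := by
      rw [Complex.sub_re]
      have e : y.re - x.re = (y.re - c.re + L) - (x.re - c.re + L) := by ring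
      rw [e]; exact k1
    have k2' : |(y - x).im| ≤ t := by
      rw [Complex.sub_im]
      have e : y.im - x.im = (y.im - c.im + L) - (x.im - c.im + L) := by ring
      rw [e]; exact k2
    rw [dist_eq_norm]
    have hsq : ‖y - x‖ ^ 2 ≤ s ^ 2 := by
      rw [Complex.sq_norm, Complex.normSq_apply]
      have j1 : (y - x).re * (y - x).re ≤ t ^ 2 := by
        rw [← sq, ← sq_abs]; exact pow_le_pow_left₀ (abs_nonneg _) k1' 2
      have j2 : (y - x).im * (y - x).im ≤ t ^ 2 := by
        rw [← sq, ← sq_abs]; exact pow_le_pow_left₀ (abs_nonneg _) k2' 2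
      have : t ^ 2 + t ^ 2 ≤ s ^ 2 := by rw [ht]; nlinarith
      linarith
    exact le_of_sq_le_sq hsq hs.le
  rw [← Finset.sum_fiberwise_of_maps_to hmaps]
  have hfib : ∀ q ∈ (Finset.range (N + 1)) ×ˢ (Finset.range (N + 1)),
      ∑ x ∈ S.filter (fun x => φ x = q), (1:ℝ) / ((S.filter (fun y => dist y x ≤ s)).card : ℝ) ≤ 1 := by
    intro q hq
    set F := S.filter (fun x => φ x = q) with hF
    rcases F.eq_empty_or_nonempty with he | hFne
    · rw [he]; simp
    have hFpos : (0:ℝ) < F.card := by exact_mod_cast Finset.card_pos.2 hFne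
    calc ∑ x ∈ F, (1:ℝ) / ((S.filter (fun y => dist y x ≤ s)).card : ℝ) ≤ ∑ x ∈ F, (1:ℝ) / F.card := by
          apply Finset.sum_le_sum
          intro x hx
          apply one_div_le_one_div_of_le hFpos
          have : F ⊆ S.filter (fun y => dist y x ≤ s) := by
            intro y hy
            have hx := Finset.mem_filter.1 hx
            have hy := Finset.mem_filter.1 hy
            exact Finset.mem_filter.2 ⟨hy.1, hclose x hx.1 y hy.1 (hx.2.trans hy.2.symm)⟩
          exact_mod_cast Finset.card_le_card this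
      _ = 1 := by
          rw [Finset.sum_const, nsmul_eq_mul]
          field_simp
  calc _ ≤ ∑ q ∈ (Finset.range (N + 1)) ×ˢ (Finset.range (N + 1)), (1:ℝ) := Finset.sum_le_sum hfib
    _ = ((N:ℝ) + 1) ^ 2 := by
        rw [Finset.sum_const, Finset.card_product, Finset.card_range]
        simp; ring
    _ ≤ (3 * L / s + 2) ^ 2 := by
        apply pow_le_pow_left₀ (by positivity)
        have h1 : (N:ℝ) ≤ 2 * L / t := Nat.floor_le (by positivity)
        have h2 : 2 * L / t ≤ 3 * L / s := by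
          rw [div_le_div_iff₀ ht0 hs, ht]
          nlinarith [mul_nonneg hL hs.le]
        linarith

-- M3
theorem alpha_bound (A E : Finset ℂ) (hE : E ⊆ A) (κ k₁ μ : ℝ) (hκ : 0 < κ) (hκ1 : κ ≤ 1)
    (hk₁ : 0 ≤ k₁) (hμ : 0 < μ) (f : ℂ) (X : Finset ℂ) (hX : ∀ x ∈ X, x ∈ E ∧ x ≠ f ∧
      ((E.filter (fun e => dist e f ≤ κ * dist f x)).card : ℝ) < k₁ ∧ μ ≤ (M A x (dist f x) : ℝ)) :
    ∑ x ∈ X, (1:ℝ) / (M A x (dist f x) : ℝ) ≤ (3 / κ + 2) ^ 2 + k₁ / μ := by
  rcases X.eq_empty_or_nonempty with rfl | hne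
  · simp; positivity
  obtain ⟨m, hm, hmax⟩ := Finset.exists_max_image X (fun x => dist f x) hne
  set ρ := dist f m with hρ
  have hρ0 : 0 < ρ := dist_pos.2 (hX m hm).2.1.symm
  rw [← Finset.sum_filter_add_sum_filter_not X (fun x => dist f x ≤ κ * ρ), add_comm]
  apply add_le_add
  · set S := X.filter (fun x => ¬ dist f x ≤ κ * ρ) with hS
    have h1 := cover_sum S f ρ (κ * ρ) (by positivity) (by
      intro x hx
      rw [dist_comm]
      exact hmax x (Finset.mem_filter.1 hx).1)
    have e : 3 * ρ / (κ * ρ) = 3 / κ := by field_simp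
    rw [e] at h1
    refine le_trans (Finset.sum_le_sum ?_) h1
    intro x hx
    have hxS := Finset.mem_filter.1 hx
    apply one_div_le_one_div_of_le
    · have : 0 < (S.filter (fun y => dist y x ≤ κ * ρ)).card := by
        apply Finset.card_pos.2
        refine ⟨x, Finset.mem_filter.2 ⟨hx, ?_⟩⟩
        rw [dist_self]; positivity
      exact_mod_cast this
    · have : (S.filter (fun y => dist y x ≤ κ * ρ)).card ≤ M A x (dist f x) := by
        apply Finset.card_le_card
        intro y hy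
        have hy := Finset.mem_filter.1 hy
        refine Finset.mem_filter.2 ⟨hE (hX y (Finset.mem_filter.1 hy.1).1).1, hy.2.trans ?_⟩
        exact (not_le.1 hxS.2).le
      exact_mod_cast this
  · have h1 : ∀ x ∈ X.filter (fun x => dist f x ≤ κ * ρ), (1:ℝ) / (M A x (dist f x) : ℝ) ≤ 1 / μ := by
      intro x hx
      exact one_div_le_one_div_of_le hμ (hX x (Finset.mem_filter.1 hx).1).2.2.2
    have h2 : ((X.filter (fun x => dist f x ≤ κ * ρ)).card : ℝ) ≤ k₁ := by
      refine le_trans ?_ (hX m hm).2.2.1.le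
      have : (X.filter (fun x => dist f x ≤ κ * ρ)).card ≤
          (E.filter (fun e => dist e f ≤ κ * dist f m)).card := by
        apply Finset.card_le_card
        intro x hx
        have hx := Finset.mem_filter.1 hx
        refine Finset.mem_filter.2 ⟨(hX x hx.1).1, ?_⟩
        rw [dist_comm]; exact hx.2
      exact_mod_cast this
    calc _ ≤ ∑ x ∈ X.filter (fun x => dist f x ≤ κ * ρ), (1 / μ) := Finset.sum_le_sum h1
      _ = ((X.filter (fun x => dist f x ≤ κ * ρ)).card : ℝ) * (1 / μ) := by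
          rw [Finset.sum_const, nsmul_eq_mul]
      _ ≤ k₁ * (1 / μ) := mul_le_mul_of_nonneg_right h2 (by positivity)
      _ = k₁ / μ := by ring

end

end Pool.Agent.DD
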