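import Pool.Agent.Lib_helper96.DD_FD0
import Pool.Agent.Lib_helper68.DD_FA
import Pool.Agent.Lib_helper56.DD_FB
import Pool.Agent.Lib_helper51.DD_FC
import Pool.Agent.Lib_helper64.DD_QT

/-!
# MP_a2cbb7_co : block FD (helper96), final statements
-/

set_option autoImplicit false

namespace Pool.Agent.DD

open Finset Classical

noncomputable section

theorem far_count_lower (A : Finset ℂ) (hA : NC A) (x : ℂ) (hx : x ∈ A) (b p : ℝ) (hp : 0 < p)
    (hp1 : p ≤ 1/2) (hb : (((A.erase x).filter (fun a => ¬ Reg A x a)).card : ℝ) ≤ b)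
    (hbp : b + 5 ≤ 1 / (2 * p)) (hpn : 1 / p ≤ A.card) :
    1 / (8 * p) ≤ ex p A (fun R =>
      ((A.filter (fun a => Reg A x a ∧ ∀ r ∈ R, dist r x < dist a x)).card : ℝ)) :=
  FD.far_count_lower A hA x hx b p hp hp1 hb hbp hpn

theorem far_mass : ∃ β : ℝ, 0 < β ∧ ∀ d : ℝ, 0 < d → ∃ c : ℝ, 0 < c ∧ ∃ N : ℕ, ∀ A : Finset ℂ,
    NC A → N ≤ A.card → (∀ x ∈ A, (D A x : ℝ) ≤ (1/3 + c) * A.card) →
    β * A.card ≤ ((A.filter (fun v => ∃ u : ℂ, u ≠ 0 ∧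
      ((A.filter (fun a => 0 ≤ (a - v).re * u.re + (a - v).im * u.im)).card : ℝ) ≤ d * A.card)).card : ℝ) :=
  FD.far_mass_of (FD.far_mass_re ex_SE ex_hull Tri_card ex_Tri T_lemma
    (fun A R hA hR h2 p hp => cells A R hA hR h2 p hp))

end

end Pool.Agent.DD
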