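import Pool.Agent.Lib_helper67.LR.Defs

/-! Block RZ (helper96): Riesz products -/

set_option autoImplicit false

namespace Pool.Agent.Lib_helper67.LR

open Finset Pool.Agent.Lib_helper78.LR
open scoped BigOperators

theorem chi_sum {Ω : Type} [Fintype Ω] [DecidableEq Ω] (w : Finset (G Ω)) (x : G Ω) :
    chi (∑ g ∈ w, g) x = ∏ g ∈ w, chi g x := by
  induction w using Finset.induction_on with
  | empty =>
    rw [Finset.sum_empty, Finset.prod_empty, chi_comm, chi_zero]
  | insert a s ha ih =>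
    rw [Finset.sum_insert ha, Finset.prod_insert ha, chi_add_left, ih]

theorem sum_ne_zero_of_linIndep {V : Type} [AddCommGroup V] [Module (ZMod 2) V] (Γ : Finset V)
    (hΓ : LinearIndependent (ZMod 2) (fun x : {x // x ∈ Γ} => (x : V))) (w : Finset V)
    (hw : w ⊆ Γ) (hne : w.Nonempty) : ∑ g ∈ w, g ≠ 0 := by
  classical
  intro h0
  rw [linearIndependent_iff'] at hΓ
  obtain ⟨g0, hg0⟩ := hne
  have key := hΓ (w.subtype (fun x => x ∈ Γ)) (fun _ => 1) (by
      simp only [one_smul]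
      have h := Finset.sum_subtype_of_mem (s := w) (p := fun x => x ∈ Γ) (fun g : V => g)
        (fun x hx => hw hx)
      rw [h0] at h
      exact h) ⟨g0, hw hg0⟩ (by
      rw [Finset.mem_subtype]
      exact hg0)
  exact one_ne_zero key

theorem riesz {Ω : Type} [Fintype Ω] [DecidableEq Ω] (f : G Ω → ℝ) (hf : ∀ x, |f x| ≤ 1)
    (α : G Ω) (Γ : Finset (G Ω))
    (hΓ : LinearIndependent (ZMod 2) (fun x : {x // x ∈ Γ} => (x : G Ω)))
    (r : G Ω → ℝ) (hr : ∀ g, |r g| ≤ 1) :
    |∑ w ∈ Γ.powerset, (∏ g ∈ w, r g) * nc f (α + ∑ g ∈ w, g)| ≤ 1 := by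
  set N : ℝ := 2 ^ Fintype.card Ω with hN
  have hN0 : 0 < N := by positivity
  have h1 : ∑ w ∈ Γ.powerset, (∏ g ∈ w, r g) * nc f (α + ∑ g ∈ w, g) =
      (∑ x, f x * chi α x * ∏ g ∈ Γ, (1 + r g * chi g x)) / N := by
    rw [Finset.sum_div]
    have e1 : ∀ x : G Ω, f x * chi α x * ∏ g ∈ Γ, (1 + r g * chi g x) =
        ∑ w ∈ Γ.powerset, f x * chi α x * ((∏ g ∈ w, r g) * ∏ g ∈ w, chi g x) := by
      intro x
      rw [Finset.prod_one_add, Finset.mul_sum]
      exact Finset.sum_congr rfl fun w _ => by rw [Finset.prod_mul_distrib]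
    simp_rw [e1, Finset.sum_div]
    rw [Finset.sum_comm]
    refine Finset.sum_congr rfl fun w _ => ?_
    unfold nc coef
    rw [mul_div_assoc', Finset.mul_sum, Finset.sum_div]
    refine Finset.sum_congr rfl fun x _ => ?_
    rw [chi_add_left, chi_sum]
    ring
  have habs : ∀ a x : G Ω, |chi a x| = 1 := by
    intro a x
    have := chi_mul_self a x
    have h2 : |chi a x| * |chi a x| = 1 := by rw [← abs_mul, this, abs_one]
    nlinarith [abs_nonneg (chi a x)]
  have hpos : ∀ x : G Ω, 0 ≤ ∏ g ∈ Γ, (1 + r g * chi g x) := by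
    intro x
    apply Finset.prod_nonneg
    intro g _
    have : |r g * chi g x| ≤ 1 := by rw [abs_mul, habs, mul_one]; exact hr g
    linarith [(abs_le.1 this).1]
  have h2 : ∑ x : G Ω, ∏ g ∈ Γ, (1 + r g * chi g x) = N := by
    have e1 : ∀ x : G Ω, ∏ g ∈ Γ, (1 + r g * chi g x) =
        ∑ w ∈ Γ.powerset, (∏ g ∈ w, r g) * chi x (∑ g ∈ w, g) := by
      intro x
      rw [Finset.prod_one_add]
      refine Finset.sum_congr rfl fun w _ => ?_
      rw [Finset.prod_mul_distrib, chi_comm x, chi_sum]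
    simp_rw [e1]
    rw [Finset.sum_comm]
    have e2 : ∀ w ∈ Γ.powerset, ∑ x : G Ω, (∏ g ∈ w, r g) * chi x (∑ g ∈ w, g) =
        if w = ∅ then N else 0 := by
      intro w hw
      rw [← Finset.mul_sum, sum_chi]
      by_cases hw0 : w = ∅
      · subst hw0
        simp [hN]
      · rw [if_neg hw0, if_neg, mul_zero]
        exact sum_ne_zero_of_linIndep Γ hΓ w (Finset.mem_powerset.1 hw)
          (Finset.nonempty_iff_ne_empty.2 hw0)
    rw [Finset.sum_congr rfl e2, Finset.sum_ite_eq' , if_pos (Finset.empty_mem_powerset _)]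
  rw [h1, abs_div, abs_of_pos hN0, div_le_one hN0]
  calc |∑ x, f x * chi α x * ∏ g ∈ Γ, (1 + r g * chi g x)|
      ≤ ∑ x, |f x * chi α x * ∏ g ∈ Γ, (1 + r g * chi g x)| := Finset.abs_sum_le_sum_abs _ _
    _ ≤ ∑ x : G Ω, ∏ g ∈ Γ, (1 + r g * chi g x) := by
        apply Finset.sum_le_sum
        intro x _
        rw [abs_mul, abs_mul, habs, mul_one, abs_of_nonneg (hpos x)]
        calc |f x| * _ ≤ 1 * ∏ g ∈ Γ, (1 + r g * chi g x) :=
              mul_le_mul_of_nonneg_right (hf x) (hpos x)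
          _ = _ := one_mul _
    _ = N := h2

end Pool.Agent.Lib_helper67.LR
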