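import Pool.Agent.Lib_helper67.LR.Defs

/-! Block N4 (helper96): every difference of spectrum elements has a second representation;
Parseval -/

set_option autoImplicit false

namespace Pool.Agent.Lib_helper67.LR

open Finset Pool.Agent.Lib_helper78.LR
open scoped BigOperators

theorem corr_eq {Ω : Type} [Fintype Ω] [DecidableEq Ω] (f : G Ω → ℝ) (hf : IsSign f) (η : G Ω) :
    ∑ a, coef f a * coef f (a + η) =
      if η = 0 then (2 : ℝ) ^ Fintype.card Ω * 2 ^ Fintype.card Ω else 0 := by
  have h1 : ∑ a, coef f a * coef f (a + η) =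
      ∑ x, f x * chi η x * ∑ a, coef f a * chi a x := by
    simp_rw [Finset.mul_sum]
    rw [Finset.sum_comm]
    refine Finset.sum_congr rfl fun a _ => ?_
    have : coef f (a + η) = ∑ x, f x * chi (a + η) x := rfl
    rw [this, Finset.mul_sum]
    refine Finset.sum_congr rfl fun x _ => ?_
    rw [chi_add_left]; ring
  have h2 : ∀ x : G Ω, f x * chi η x * ∑ a, coef f a * chi a x =
      (2 : ℝ) ^ Fintype.card Ω * chi x η := by
    intro x
    rw [inversion, chi_comm x η]
    have : f x * f x = 1 := by
      rcases hf x with h | h <;> rw [h] <;> norm_num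
    calc f x * chi η x * ((2 : ℝ) ^ Fintype.card Ω * f x) =
        (f x * f x) * ((2 : ℝ) ^ Fintype.card Ω * chi η x) := by ring
      _ = _ := by rw [this, one_mul]
  rw [h1, Finset.sum_congr rfl (fun x _ => h2 x), ← Finset.mul_sum, sum_chi]
  split_ifs <;> simp

theorem parseval {Ω : Type} [Fintype Ω] [DecidableEq Ω] (f : G Ω → ℝ) (hf : IsSign f) :
    ∑ a, nc f a ^ 2 = 1 := by
  have h := corr_eq f hf 0
  rw [if_pos rfl] at h
  simp only [add_zero] at h
  unfold nc
  have hN : (2 : ℝ) ^ Fintype.card Ω ≠ 0 := by positivity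
  simp_rw [div_pow]
  rw [← Finset.sum_div]
  have : ∑ a, coef f a ^ 2 = ∑ a, coef f a * coef f a :=
    Finset.sum_congr rfl fun a _ => by ring
  rw [this, h, div_eq_one_iff_eq (pow_ne_zero _ hN)]
  ring

theorem four_le_Nn {Ω : Type} [Fintype Ω] [DecidableEq Ω] (f : G Ω → ℝ) (hf : IsSign f)
    (α β : G Ω) (hα : α ∈ spec f) (hβ : β ∈ spec f) (hne : α ≠ β) :
    4 ≤ Nn (spec f) (α + β) := by
  have hself : ∀ x y : G Ω, x + (x + y) = y := by
    intro x y; rw [← add_assoc, add_self, zero_add]
  have hη : α + β ≠ 0 := by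
    intro h
    apply hne
    rw [eq_neg_of_add_eq_zero_left h, Pool.Agent.Lib_helper78.LR.neg_eq_self]
  have hc := corr_eq f hf (α + β)
  rw [if_neg hη] at hc
  set F := (spec f).filter (fun z => z + (α + β) ∈ spec f) with hF
  have hαF : α ∈ F := by
    rw [hF, Finset.mem_filter]; exact ⟨hα, by rw [hself]; exact hβ⟩
  have hβF : β ∈ F := by
    rw [hF, Finset.mem_filter]
    exact ⟨hβ, by rw [add_comm α β, hself]; exact hα⟩
  -- the sum is supported on F
  have hsum : ∑ a ∈ F, coef f a * coef f (a + (α + β)) = 0 := by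
    rw [← hc]
    apply Finset.sum_subset (Finset.subset_univ _)
    intro a _ ha
    rw [hF, Finset.mem_filter, mem_spec, mem_spec] at ha
    by_cases h1 : coef f a = 0
    · rw [h1, zero_mul]
    · by_cases h2 : coef f (a + (α + β)) = 0
      · rw [h2, mul_zero]
      · exact absurd ⟨h1, h2⟩ ha
  have hαβ : coef f α ≠ 0 ∧ coef f β ≠ 0 := ⟨(mem_spec f α).1 hα, (mem_spec f β).1 hβ⟩
  -- a third element
  obtain ⟨z, hz⟩ : ∃ z, z ∈ (F.erase α).erase β := by
    by_contra hcon
    push Not at hcon
    have hFe : F = {α, β} := by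
      ext z
      rw [Finset.mem_insert, Finset.mem_singleton]
      constructor
      · intro h
        by_contra h'
        push Not at h'
        exact hcon z (Finset.mem_erase.2 ⟨h'.2, Finset.mem_erase.2 ⟨h'.1, h⟩⟩)
      · rintro (rfl | rfl) <;> assumption
    rw [hFe, Finset.sum_pair hne, hself, add_comm α β, hself] at hsum
    have h3 : coef f α * coef f β = 0 := by linarith [mul_comm (coef f α) (coef f β)]
    exact mul_ne_zero hαβ.1 hαβ.2 h3
  obtain ⟨hzβ, hz'⟩ := Finset.mem_erase.1 hz
  obtain ⟨hzα, hzF⟩ := Finset.mem_erase.1 hz'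
  have hzF' := Finset.mem_filter.1 hzF
  set z' := z + (α + β) with hz'def
  have hz'F : z' ∈ F := by
    rw [hF, Finset.mem_filter]
    refine ⟨hzF'.2, ?_⟩
    rw [hz'def]
    have : z + (α + β) + (α + β) = z := by rw [add_assoc, add_self, add_zero]
    rw [this]; exact hzF'.1
  have hz'z : z' ≠ z := by
    intro h
    apply hη
    have := congrArg (fun t => z + t) h
    simp only [hz'def, hself, add_self] at this
    exact this
  have hz'α : z' ≠ α := by
    intro h
    apply hzβ
    have := congrArg (fun t => t + (α + β)) h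
    simp only [hz'def, hself] at this
    rw [add_assoc, add_self, add_zero] at this
    exact this
  have hz'β : z' ≠ β := by
    intro h
    apply hzα
    have := congrArg (fun t => t + (α + β)) h
    simp only [hz'def] at this
    rw [add_assoc, add_self, add_zero, add_comm α β, hself] at this
    exact this
  have hsub : ({α, β, z, z'} : Finset (G Ω)) ⊆ F := by
    intro t ht
    simp only [Finset.mem_insert, Finset.mem_singleton] at ht
    rcases ht with rfl | rfl | rfl | rfl <;> assumption
  have hcard : ({α, β, z, z'} : Finset (G Ω)).card = 4 := by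
    rw [Finset.card_insert_of_notMem, Finset.card_insert_of_notMem,
      Finset.card_insert_of_notMem, Finset.card_singleton]
    · simp only [Finset.mem_singleton]; exact fun h => hz'z h.symm
    · simp only [Finset.mem_insert, Finset.mem_singleton, not_or]
      exact ⟨fun h => hzβ h.symm, fun h => hz'β h.symm⟩
    · simp only [Finset.mem_insert, Finset.mem_singleton, not_or]
      exact ⟨hne, fun h => hzα h.symm, fun h => hz'α h.symm⟩
  have := Finset.card_le_card hsub
  rw [hcard] at this
  exact this

end Pool.Agent.Lib_helper67.LR
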