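import Pool.Agent.Lib_helper84.BT.W3defs

set_option autoImplicit false

/-! Blocks D and D4 (dual actions of words, MP_7da452_al). -/

namespace Pool.Agent.Lib_helper84.BT

section words

variable {Q X : Type*} (δ : Q → X → Q) (ρ : Q → X → X) (f : Q → Equiv.Perm (List X))

/-- D1 -/
theorem wf_cons (hf : ∀ q x w, f q (x :: w) = ρ q x :: f (δ q x) w) (v : List Q) (x : X)
    (w : List X) : wf f v (x :: w) = pass ρ v x :: wf f (dact δ ρ x v) w := by
  induction v generalizing x w with
  | nil => rfl
  | cons q v ih =>
    show wf f v (f q (x :: w)) = _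
    rw [hf, ih]
    rfl

theorem D_dact_append (v w : List Q) (x : X) :
    dact δ ρ x (v ++ w) = dact δ ρ x v ++ dact δ ρ (pass ρ v x) w := by
  induction v generalizing x with
  | nil => rfl
  | cons q v ih =>
    show δ q x :: dact δ ρ (ρ q x) (v ++ w) = δ q x :: (dact δ ρ (ρ q x) v ++ _)
    rw [ih]
    rfl

theorem D_trivial (hf : ∀ q x w, f q (x :: w) = ρ q x :: f (δ q x) w)
    (v : List Q) (hv : wf f v = 1) (x : X) : pass ρ v x = x ∧ wf f (dact δ ρ x v) = 1 := by
  have key : ∀ w : List X, pass ρ v x = x ∧ wf f (dact δ ρ x v) w = w := by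
    intro w
    have h1 := wf_cons δ ρ f hf v x w
    rw [hv] at h1
    have h2 : x :: w = pass ρ v x :: wf f (dact δ ρ x v) w := h1
    rw [List.cons.injEq] at h2
    exact ⟨h2.1.symm, h2.2.symm⟩
  exact ⟨(key []).1, Equiv.ext fun w => (key w).2⟩

theorem D_dact_pow (hf : ∀ q x w, f q (x :: w) = ρ q x :: f (δ q x) w)
    (v : List Q) (hv : wf f v = 1) (x : X) (i : ℕ) :
    dact δ ρ x (List.replicate i v).flatten = (List.replicate i (dact δ ρ x v)).flatten := by
  induction i with
  | zero => rfl
  | succ i ih =>
    rw [List.replicate_succ, List.flatten_cons, List.replicate_succ, List.flatten_cons,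
      D_dact_append, (D_trivial δ ρ f hf v hv x).1, ih]

/-- D2: if `v` acts trivially then the dual action on the powers of `v` is by powers -/
theorem dacts_pow (hf0 : ∀ q, f q [] = []) (hf : ∀ q x w, f q (x :: w) = ρ q x :: f (δ q x) w)
    (v : List Q) (hv : wf f v = 1) (u : List X) (i : ℕ) :
    dacts δ ρ u (List.replicate i v).flatten = (List.replicate i (dacts δ ρ u v)).flatten := by
  induction u generalizing v with
  | nil => rfl
  | cons x u ih =>
    show dacts δ ρ u (dact δ ρ x (List.replicate i v).flatten) = _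
    rw [D_dact_pow δ ρ f hf v hv x i, ih _ (D_trivial δ ρ f hf v hv x).2]
    rfl

theorem D_wf_append (v w : List Q) : wf f (v ++ w) = wf f w * wf f v := by
  induction v with
  | nil => exact (mul_one _).symm
  | cons q v ih =>
    show wf f (v ++ w) * f q = wf f w * (wf f v * f q)
    rw [ih, mul_assoc]

theorem D_wf_nil (hf0 : ∀ q, f q [] = []) (v : List Q) : wf f v [] = [] := by
  induction v with
  | nil => rfl
  | cons q v ih =>
    show wf f v (f q []) = []
    rw [hf0, ih]

/-- the action of a word is determined by the first output letters of its images -/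
theorem D_det (hf0 : ∀ q, f q [] = []) (hf : ∀ q x w, f q (x :: w) = ρ q x :: f (δ q x) w)
    (v v' : List Q) (h : ∀ u : List X, pass ρ (dacts δ ρ u v) = pass ρ (dacts δ ρ u v')) :
    wf f v = wf f v' := by
  refine Equiv.ext fun w => ?_
  induction w generalizing v v' with
  | nil => rw [D_wf_nil f hf0, D_wf_nil f hf0]
  | cons x w ih =>
    rw [wf_cons δ ρ f hf, wf_cons δ ρ f hf]
    have h1 : pass ρ v x = pass ρ v' x := congrFun (h []) x
    rw [h1, ih (dact δ ρ x v) (dact δ ρ x v') (fun u => h (x :: u))]

/-- D3: finiteness of the dual monoid implies finiteness of the group -/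
theorem finite_of_dual_finite [Finite Q] [Finite X]
    (hf0 : ∀ q, f q [] = []) (hf : ∀ q x w, f q (x :: w) = ρ q x :: f (δ q x) w)
    (hfin : (Set.range (fun u : List X => dacts δ ρ u)).Finite) :
    ((Subgroup.closure (Set.range f) : Set (Equiv.Perm (List X)))).Finite := by
  classical
  have hF : Finite (Set.range (fun u : List X => dacts δ ρ u)) := hfin
  -- the monoid of the words is finite
  have h1 : (Set.range (wf f)).Finite := by
    let Φ : List Q → (Set.range (fun u : List X => dacts δ ρ u)) → (X → X) :=
      fun v d => pass ρ (d.1 v)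
    have h2 : (Set.range Φ).Finite := Set.toFinite _
    have h3 : ∀ v v', Φ v = Φ v' → wf f v = wf f v' := by
      intro v v' h
      refine D_det δ ρ f hf0 hf v v' fun u => ?_
      exact congrFun h ⟨dacts δ ρ u, u, rfl⟩
    refine Set.Finite.subset (h2.image (fun φ => if h : ∃ v, Φ v = φ then wf f h.choose else 1)) ?_
    rintro _ ⟨v, rfl⟩
    refine ⟨Φ v, ⟨v, rfl⟩, ?_⟩
    have h4 : ∃ v', Φ v' = Φ v := ⟨v, rfl⟩
    show (if h : ∃ v', Φ v' = Φ v then wf f h.choose else 1) = wf f v
    rw [dif_pos h4]
    exact h3 _ _ h4.choose_spec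
  -- it is a submonoid
  let S : Submonoid (Equiv.Perm (List X)) :=
    { carrier := Set.range (wf f)
      mul_mem' := by
        rintro _ _ ⟨v, rfl⟩ ⟨w, rfl⟩
        exact ⟨w ++ v, D_wf_append f w v⟩
      one_mem' := ⟨[], rfl⟩ }
  have hS : (S : Set (Equiv.Perm (List X))).Finite := h1
  let T : Subgroup (Equiv.Perm (List X)) :=
    { S with
      inv_mem' := by
        intro g hg
        have h5 : (Submonoid.powers g : Set (Equiv.Perm (List X))).Finite := by
          refine hS.subset ?_
          intro y hy
          obtain ⟨n, rfl⟩ := hy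
          exact S.pow_mem hg n
        have h6 : IsOfFinOrder g := finite_powers.1 h5
        have h7 : g⁻¹ ∈ (Submonoid.powers g : Set (Equiv.Perm (List X))) := by
          rw [h6.powers_eq_zpowers]
          exact inv_mem (Subgroup.mem_zpowers g)
        obtain ⟨n, hn⟩ := h7
        have h8 : g⁻¹ = g ^ n := hn.symm
        show g⁻¹ ∈ S
        rw [h8]
        exact S.pow_mem hg n }
  have hle : Subgroup.closure (Set.range f) ≤ T := by
    rw [Subgroup.closure_le]
    rintro _ ⟨q, rfl⟩
    refine ⟨[q], ?_⟩
    show wf f [] * f q = f q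
    exact one_mul _
  exact hS.subset hle

theorem D_dact_inj (hδ : ∀ x, Function.Bijective (fun q => δ q x)) (w w' : List Q) (x : X)
    (h : dact δ ρ x w = dact δ ρ x w') : w = w' := by
  induction w generalizing w' x with
  | nil =>
    cases w' with
    | nil => rfl
    | cons q w' => exact absurd h (by simp [dact])
  | cons q w ih =>
    cases w' with
    | nil => exact absurd h (by simp [dact])
    | cons q' w' =>
      have h2 : δ q x :: dact δ ρ (ρ q x) w = δ q' x :: dact δ ρ (ρ q' x) w' := h
      rw [List.cons.injEq] at h2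
      have h3 : q = q' := (hδ x).1 h2.1
      subst h3
      rw [ih _ _ h2.2]

theorem D_dact_length (w : List Q) (x : X) : (dact δ ρ x w).length = w.length := by
  induction w generalizing x with
  | nil => rfl
  | cons q w ih =>
    show (dact δ ρ (ρ q x) w).length + 1 = w.length + 1
    rw [ih]

/-- D4: a connected reversible transducer with a trivial nonempty word is bireversible
(Godin, Klimann, Picantin) -/
theorem bireversible_of_trivial_word [Finite Q] [Finite X]
    (hf0 : ∀ q, f q [] = []) (hf : ∀ q x w, f q (x :: w) = ρ q x :: f (δ q x) w)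
    (hρ : ∀ q, Function.Bijective (ρ q)) (hδ : ∀ x, Function.Bijective (fun q => δ q x))
    (hconn : ∀ q q' : Q, ∃ u : List X, dacts δ ρ u [q] = [q'])
    (v : List Q) (hv0 : v ≠ []) (hv : wf f v = 1) :
    Function.Bijective (fun a : Q × X => (δ a.1 a.2, ρ a.1 a.2)) := by
  classical
  obtain ⟨q0, v0, rfl⟩ := List.exists_cons_of_ne_nil hv0
  let T : Q → Set (List Q) := fun q => {w | w.length = v0.length ∧ wf f (q :: w) = 1}
  have hTfin : ∀ q, (T q).Finite := fun q =>
    (List.finite_length_eq Q v0.length).subset fun w hw => hw.1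
  have hmap : ∀ q x w, w ∈ T q → dact δ ρ (ρ q x) w ∈ T (δ q x) := by
    intro q x w hw
    refine ⟨by rw [D_dact_length]; exact hw.1, ?_⟩
    exact (D_trivial δ ρ f hf (q :: w) hw.2 x).2
  have hstep : ∀ q x, (T q).ncard ≤ (T (δ q x)).ncard := by
    intro q x
    refine Set.ncard_le_ncard_of_injOn (dact δ ρ (ρ q x)) (fun w hw => hmap q x w hw) ?_
      (hTfin _)
    intro w _ w' _ h
    exact D_dact_inj δ ρ hδ w w' _ h
  have hall : ∀ (u : List X) (q q' : Q), dacts δ ρ u [q] = [q'] →
      (T q).ncard ≤ (T q').ncard := by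
    intro u
    induction u with
    | nil =>
      intro q q' h
      have h1 : [q] = [q'] := h
      rw [List.cons.injEq] at h1
      rw [h1.1]
    | cons x u ih =>
      intro q q' h
      exact (hstep q x).trans (ih (δ q x) q' h)
  have heq : ∀ q q', (T q).ncard ≤ (T q').ncard := by
    intro q q'
    obtain ⟨u, hu⟩ := hconn q q'
    exact hall u q q' hu
  have hpos : 0 < (T q0).ncard := by
    rw [Set.ncard_pos (hTfin q0)]
    exact ⟨v0, rfl, hv⟩
  have hinj : Function.Injective (fun a : Q × X => (δ a.1 a.2, ρ a.1 a.2)) := by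
    rintro ⟨q, x⟩ ⟨q', x'⟩ h
    have h1 : δ q x = δ q' x' := congrArg Prod.fst h
    have h2 : ρ q x = ρ q' x' := congrArg Prod.snd h
    by_cases hq : q = q'
    · subst hq
      rw [(hρ q).1 h2]
    · exfalso
      have hpass : ∀ w q x, w ∈ T q → pass ρ w (ρ q x) = x := fun w q x hw =>
        (D_trivial δ ρ f hf (q :: w) hw.2 x).1
      have hdis : Disjoint (T q) (T q') := by
        rw [Set.disjoint_left]
        intro w hw hw'
        have h3 := hpass w q x hw
        have h4 := hpass w q' x' hw'
        rw [← h2, h3] at h4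
        subst h4
        exact hq ((hδ x).1 h1)
      have h5 : (T q ∪ T q').ncard ≤ (T (δ q x)).ncard := by
        refine Set.ncard_le_ncard_of_injOn (dact δ ρ (ρ q x)) ?_ ?_ (hTfin _)
        · rintro w (hw | hw)
          · exact hmap q x w hw
          · rw [h1, h2]
            exact hmap q' x' w hw
        · intro w _ w' _ h
          exact D_dact_inj δ ρ hδ w w' _ h
      rw [Set.ncard_union_eq hdis (hTfin _) (hTfin _)] at h5
      have h6 := heq (δ q x) q
      have h7 := heq q0 q'
      omega
  exact Finite.injective_iff_bijective.1 hinj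

end words

end Pool.Agent.Lib_helper84.BT
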