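import Pool.Agent.Lib_helper51.DD_FDefs
import Pool.Agent.Lib_helper56.DD_R
import Pool.Agent.Lib_helper96.DD_M1

/-!
# MP_a2cbb7_co : block FD (helper96): far_count_lower, far_mass
-/

set_option autoImplicit false

namespace Pool.Agent.DD.FD

open Finset Classical

noncomputable section

theorem ex_mono {α : Type*} [DecidableEq α] {p : ℝ} (hp : 0 ≤ p) (hp1 : p ≤ 1) (A : Finset α)
    {f g : Finset α → ℝ} (h : ∀ R ⊆ A, f R ≤ g R) : ex p A f ≤ ex p A g := by
  unfold ex
  apply Finset.sum_le_sum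
  intro R hR
  apply mul_le_mul_of_nonneg_left (h R (Finset.mem_powerset.1 hR))
  have : 0 ≤ 1 - p := by linarith
  positivity

theorem ex_congr {α : Type*} [DecidableEq α] {p : ℝ} (A : Finset α)
    {f g : Finset α → ℝ} (h : ∀ R ⊆ A, f R = g R) : ex p A f = ex p A g := by
  unfold ex
  apply Finset.sum_congr rfl
  intro R hR
  rw [h R (Finset.mem_powerset.1 hR)]

theorem ex_add {α : Type*} [DecidableEq α] (p : ℝ) (A : Finset α) (f g : Finset α → ℝ) :
    ex p A (fun R => f R + g R) = ex p A f + ex p A g := by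
  unfold ex
  rw [← Finset.sum_add_distrib]
  exact Finset.sum_congr rfl fun R _ => by ring

theorem ex_mul {α : Type*} [DecidableEq α] (p : ℝ) (A : Finset α) (k : ℝ) (f : Finset α → ℝ) :
    ex p A (fun R => k * f R) = k * ex p A f := by
  unfold ex
  rw [Finset.mul_sum]
  exact Finset.sum_congr rfl fun R _ => by ring

theorem ex_const {α : Type*} [DecidableEq α] (p : ℝ) (A : Finset α) (k : ℝ) :
    ex p A (fun _ => k) = k := by
  unfold ex
  rw [← Finset.sum_mul, Finset.sum_pow_mul_eq_add_pow]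
  simp

theorem ex_sum {α β : Type*} [DecidableEq α] (p : ℝ) (A : Finset α) (s : Finset β)
    (f : β → Finset α → ℝ) : ex p A (fun R => ∑ i ∈ s, f i R) = ∑ i ∈ s, ex p A (f i) := by
  unfold ex
  rw [Finset.sum_comm]
  exact Finset.sum_congr rfl fun R _ => by rw [Finset.mul_sum]

theorem ex_pow {α : Type*} [DecidableEq α] (p s : ℝ) (A : Finset α) :
    ex p A (fun R => s ^ R.card) = (p * s + (1 - p)) ^ A.card := by
  unfold ex
  rw [← Finset.sum_pow_mul_eq_add_pow]
  exact Finset.sum_congr rfl fun R _ => by rw [mul_pow]; ring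

/-- `(1-p)^k ≥ 1/4` for `k ≤ 1/p`, `p ≤ 1/2` -/
theorem quarter_le {p : ℝ} (hp : 0 < p) (hp1 : p ≤ 1 / 2) {k : ℕ} (hk : (k : ℝ) ≤ 1 / p) :
    1 / 4 ≤ (1 - p) ^ k := by
  -- log(1-p) ≥ -2 (log 2) p by concavity
  have hlog : -(2 * Real.log 2) * p ≤ Real.log (1 - p) := by
    have hc := StrictConcaveOn.concaveOn strictConcaveOn_log_Ioi
    have h := hc.2 (show (1:ℝ) ∈ Set.Ioi 0 from Set.mem_Ioi.2 one_pos)
      (show (1/2:ℝ) ∈ Set.Ioi 0 from Set.mem_Ioi.2 (by norm_num))
      (show (0:ℝ) ≤ 1 - 2 * p by linarith) (show (0:ℝ) ≤ 2 * p by linarith) (by ring)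
    simp only [smul_eq_mul, Real.log_one, mul_zero, zero_add, mul_one] at h
    have e : 1 - 2 * p + 2 * p * (1 / 2) = 1 - p := by ring
    rw [e] at h
    have e2 : Real.log (1 / 2) = -Real.log 2 := by rw [one_div, Real.log_inv]
    rw [e2] at h
    linarith
  have h1p : 0 < 1 - p := by linarith
  have hl2 : 0 < Real.log 2 := Real.log_pos (by norm_num)
  have h4 : (1:ℝ) / 4 = Real.exp (-(2 * Real.log 2)) := by
    rw [Real.exp_neg, two_mul, Real.exp_add, Real.exp_log (by norm_num)]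
    norm_num
  rw [h4, ← Real.exp_log h1p, ← Real.exp_nat_mul]
  apply Real.exp_le_exp.2
  have hk' : (k : ℝ) * p ≤ 1 := by
    rw [le_div_iff₀ hp] at hk; exact hk
  calc -(2 * Real.log 2) ≤ -(2 * Real.log 2) * ((k:ℝ) * p) := by nlinarith
    _ = k * (-(2 * Real.log 2) * p) := by ring
    _ ≤ k * Real.log (1 - p) := mul_le_mul_of_nonneg_left hlog (Nat.cast_nonneg k)

/-- number of points at distance at least `|a-x|` from `x` -/
def NN (A : Finset ℂ) (x a : ℂ) : Finset ℂ := A.filter (fun r => dist a x ≤ dist r x)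

theorem far_list (A : Finset ℂ) (hA : NC A) (x : ℂ) (hx : x ∈ A) (k : ℕ) (hk : k ≤ A.card) :
    k ≤ ((A.erase x).filter (fun a => (NN A x a).card ≤ k)).card + 2 := by
  set Bad := (A.erase x).filter (fun a => ¬ (NN A x a).card ≤ k) with hBad
  have hcount : ((A.erase x).filter (fun a => (NN A x a).card ≤ k)).card + Bad.card = A.card - 1 := by
    rw [hBad, Finset.card_filter_add_card_filter_not, Finset.card_erase_of_mem hx]
  rcases Bad.eq_empty_or_nonempty with he | hne
  · rw [he, Finset.card_empty] at hcount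
    omega
  · obtain ⟨a0, ha0, hmax⟩ := Finset.exists_max_image Bad (fun a => dist a x) hne
    obtain ⟨ha0', ha0k⟩ := Finset.mem_filter.1 ha0
    have hax : a0 ≠ x := (Finset.mem_erase.1 ha0').1
    have hpos : 0 < dist a0 x := dist_pos.2 hax
    have hsplit : NN A x a0 ⊆ ((A.erase x).filter (fun a => (NN A x a).card ≤ k)) ∪
        A.filter (fun p => dist p x = dist a0 x) := by
      intro r hr
      obtain ⟨hrA, hrd⟩ := Finset.mem_filter.1 hr
      rw [Finset.mem_union]
      rcases hrd.eq_or_lt with h | h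
      · right; exact Finset.mem_filter.2 ⟨hrA, h.symm⟩
      · left
        rw [Finset.mem_filter]
        have hrx : r ≠ x := by
          rintro rfl
          rw [dist_self] at h
          linarith
        have hmem : r ∈ A.erase x := Finset.mem_erase.2 ⟨hrx, hrA⟩
        refine ⟨hmem, ?_⟩
        by_contra hcon
        have := hmax r (Finset.mem_filter.2 ⟨hmem, hcon⟩)
        linarith
    have h1 := (Finset.card_le_card hsplit).trans (Finset.card_union_le _ _)
    have h2 := hA x (dist a0 x)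
    omega

theorem far_count_lower (A : Finset ℂ) (hA : NC A) (x : ℂ) (hx : x ∈ A) (b p : ℝ) (hp : 0 < p)
    (hp1 : p ≤ 1/2) (hb : (((A.erase x).filter (fun a => ¬ Reg A x a)).card : ℝ) ≤ b)
    (hbp : b + 5 ≤ 1 / (2 * p)) (hpn : 1 / p ≤ A.card) :
    1 / (8 * p) ≤ ex p A (fun R =>
      ((A.filter (fun a => Reg A x a ∧ ∀ r ∈ R, dist r x < dist a x)).card : ℝ)) := by
  set k : ℕ := ⌊1 / p⌋₊ with hk
  have hk1 : (k : ℝ) ≤ 1 / p := Nat.floor_le (by positivity)
  have hk2 : 1 / p < k + 1 := Nat.lt_floor_add_one _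
  have hkA : k ≤ A.card := by
    have : (k : ℝ) ≤ A.card := hk1.trans hpn
    exact_mod_cast this
  set G := (A.erase x).filter (fun a => (NN A x a).card ≤ k) with hG
  have hGcard := far_list A hA x hx k hkA
  set S := G.filter (fun a => Reg A x a) with hS
  have hScard : (G.card : ℝ) ≤ S.card + b := by
    have h1 : G.card = S.card + (G.filter (fun a => ¬ Reg A x a)).card := by
      rw [hS, Finset.card_filter_add_card_filter_not]
    have h2 : (G.filter (fun a => ¬ Reg A x a)).card ≤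
        ((A.erase x).filter (fun a => ¬ Reg A x a)).card := by
      apply Finset.card_le_card
      intro a ha
      obtain ⟨ha1, ha2⟩ := Finset.mem_filter.1 ha
      exact Finset.mem_filter.2 ⟨(Finset.mem_filter.1 ha1).1, ha2⟩
    have h1' : (G.card : ℝ) = S.card + ((G.filter (fun a => ¬ Reg A x a)).card : ℝ) := by
      exact_mod_cast h1
    have h2' : ((G.filter (fun a => ¬ Reg A x a)).card : ℝ) ≤
        (((A.erase x).filter (fun a => ¬ Reg A x a)).card : ℝ) := by exact_mod_cast h2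
    linarith
  have hlow : ∑ a ∈ S, (1 / 4 : ℝ) ≤ ∑ a ∈ S, ex p A (fun R =>
      if (∅ : Finset ℂ) ⊆ R ∧ Disjoint (NN A x a) R then (1:ℝ) else 0) := by
    apply Finset.sum_le_sum
    intro a ha
    rw [ex_pair p A ∅ (NN A x a) (Finset.empty_subset _) (Finset.filter_subset _ _)
      (Finset.disjoint_empty_left _)]
    rw [Finset.card_empty, pow_zero, one_mul]
    apply quarter_le hp hp1
    have : (NN A x a).card ≤ k := (Finset.mem_filter.1 (Finset.mem_filter.1 ha).1).2
    have h2 : ((NN A x a).card : ℝ) ≤ k := by exact_mod_cast this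
    exact h2.trans hk1
  have hup : ∑ a ∈ S, ex p A (fun R =>
      if (∅ : Finset ℂ) ⊆ R ∧ Disjoint (NN A x a) R then (1:ℝ) else 0) ≤
      ex p A (fun R =>
      ((A.filter (fun a => Reg A x a ∧ ∀ r ∈ R, dist r x < dist a x)).card : ℝ)) := by
    rw [← ex_sum]
    apply ex_mono hp.le (by linarith)
    intro R hR
    rw [← Finset.sum_filter, Finset.sum_const, nsmul_eq_mul, mul_one]
    have : (S.filter (fun a => (∅ : Finset ℂ) ⊆ R ∧ Disjoint (NN A x a) R)) ⊆
        (A.filter (fun a => Reg A x a ∧ ∀ r ∈ R, dist r x < dist a x)) := by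
      intro a ha
      obtain ⟨ha1, -, ha3⟩ := Finset.mem_filter.1 ha
      obtain ⟨ha4, ha5⟩ := Finset.mem_filter.1 ha1
      have ha6 : a ∈ A := (Finset.mem_erase.1 (Finset.mem_filter.1 ha4).1).2
      refine Finset.mem_filter.2 ⟨ha6, ha5, ?_⟩
      intro r hr
      by_contra hcon
      push Not at hcon
      exact (Finset.disjoint_right.1 ha3 hr) (Finset.mem_filter.2 ⟨hR hr, hcon⟩)
    exact_mod_cast Finset.card_le_card this
  refine le_trans ?_ (hlow.trans hup)
  rw [Finset.sum_const, nsmul_eq_mul]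
  have h3 : (k : ℝ) ≤ (G.card : ℝ) + 2 := by exact_mod_cast hGcard
  have e1 : 1 / (8 * p) = (1 / p) / 8 := by rw [div_div, mul_comm]
  have e2 : 1 / (2 * p) = (1 / p) / 2 := by rw [div_div, mul_comm]
  rw [e2] at hbp
  rw [e1]
  linarith

/-! ## far mass -/

/-- the sum of exponential moments which bounds the cells -/
def HH (A : Finset ℂ) (p : ℝ) (R : Finset ℂ) : ℝ :=
  12 * ∑ T ∈ Tri R, Real.exp (p * (Far A T).card / 4) +
        2 * ∑ v ∈ R, ∑ z ∈ (R.erase v).filter (fun z => Disjoint (W 1 A v z) R),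
          Real.exp (p * (W 1 A v z).card / 4) +
        2 * ∑ v ∈ R, ∑ z ∈ (R.erase v).filter (fun z => Disjoint (W (-1) A v z) R),
          Real.exp (p * (W (-1) A v z).card / 4)

theorem HH_nonneg (A : Finset ℂ) (p : ℝ) (R : Finset ℂ) : 0 ≤ HH A p R := by
  unfold HH
  have h1 : 0 ≤ ∑ T ∈ Tri R, Real.exp (p * (Far A T).card / 4) :=
    Finset.sum_nonneg fun _ _ => (Real.exp_pos _).le
  have h2 : ∀ ε : ℝ, 0 ≤ ∑ v ∈ R, ∑ z ∈ (R.erase v).filter (fun z => Disjoint (W ε A v z) R),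
          Real.exp (p * (W ε A v z).card / 4) := fun ε =>
    Finset.sum_nonneg fun _ _ => Finset.sum_nonneg fun _ _ => (Real.exp_pos _).le
  have h3 := h2 1
  have h4 := h2 (-1)
  positivity

/-- expectation of the bound -/
theorem ex_HH
    (ex_SE : ∀ (A : Finset ℂ) (q : ℝ), 0 < q → q ≤ 1/2 →
      ex q A (fun R => ((R.filter (fun v => SE R v)).card : ℝ)) ≤
        q * ∑ v ∈ A, 9 * Real.exp (-q * depth A v / 2))
    (ex_hull : ∀ (ε : ℝ), (ε = 1 ∨ ε = -1) → ∀ (A : Finset ℂ) (p : ℝ), 0 < p → p ≤ 1/2 →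
      ex p A (fun R => ∑ v ∈ R, ∑ z ∈ (R.erase v).filter (fun z => Disjoint (W ε A v z) R),
        Real.exp (p * (W ε A v z).card / 4)) ≤
        p * ∑ v ∈ A, 11 * Real.exp (-p * depth A v / 4))
    (Tri_card : ∀ (R : Finset ℂ), NC R → (∀ a ∈ R, ∀ b ∈ R, a.re = b.re → a = b) →
      (Tri R).card ≤ 2 * (R.filter (fun v => SE R v)).card)
    (ex_Tri : ∀ (A : Finset ℂ) (p : ℝ), 0 < p → p ≤ 1/2 →
      ex p A (fun R => ∑ T ∈ Tri R, Real.exp (p * (Far A T).card / 4)) ≤
        8 * ex (p/2) A (fun R => ((Tri R).card : ℝ)))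
    (A : Finset ℂ) (hA : NC A) (hre : ∀ a ∈ A, ∀ b ∈ A, a.re = b.re → a = b) (p : ℝ) (hp : 0 < p)
    (hp1 : p ≤ 1/2) :
    ex p A (HH A p) ≤ 908 * p * ∑ v ∈ A, Real.exp (-p * depth A v / 4) := by
  have e : ex p A (HH A p) = 12 * ex p A (fun R => ∑ T ∈ Tri R, Real.exp (p * (Far A T).card / 4)) +
      2 * ex p A (fun R => ∑ v ∈ R, ∑ z ∈ (R.erase v).filter (fun z => Disjoint (W 1 A v z) R),
          Real.exp (p * (W 1 A v z).card / 4)) +
      2 * ex p A (fun R => ∑ v ∈ R, ∑ z ∈ (R.erase v).filter (fun z => Disjoint (W (-1) A v z) R),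
          Real.exp (p * (W (-1) A v z).card / 4)) := by
    unfold HH
    rw [ex_add, ex_add, ex_mul, ex_mul, ex_mul]
  rw [e]
  have h1 := ex_Tri A p hp hp1
  have h2 := ex_hull 1 (Or.inl rfl) A p hp hp1
  have h3 := ex_hull (-1) (Or.inr rfl) A p hp hp1
  have h4 : ex (p/2) A (fun R => ((Tri R).card : ℝ)) ≤
      2 * ex (p/2) A (fun R => ((R.filter (fun v => SE R v)).card : ℝ)) := by
    rw [← ex_mul]
    apply ex_mono (by linarith) (by linarith)
    intro R hR
    have hNC : NC R := by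
      intro z r
      exact (Finset.card_le_card (Finset.filter_subset_filter _ hR)).trans (hA z r)
    have := Tri_card R hNC (fun a ha b hb => hre a (hR ha) b (hR hb))
    exact_mod_cast this
  have h5 := ex_SE A (p/2) (by linarith) (by linarith)
  have e2 : ∑ v ∈ A, 9 * Real.exp (-(p/2) * depth A v / 2) =
      9 * ∑ v ∈ A, Real.exp (-p * depth A v / 4) := by
    rw [Finset.mul_sum]
    refine Finset.sum_congr rfl fun v _ => ?_
    congr 2; ring
  have e3 : ∑ v ∈ A, 11 * Real.exp (-p * depth A v / 4) =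
      11 * ∑ v ∈ A, Real.exp (-p * depth A v / 4) := by
    rw [Finset.mul_sum]
  rw [e2] at h5
  rw [e3] at h2 h3
  linarith

theorem amgm (θ X Y : ℝ) (hθ : 0 < θ) (hX0 : 0 ≤ X) (hY0 : 0 ≤ Y) :
    X ^ ((2:ℝ)/3) * Y ^ ((4:ℝ)/3) ≤ θ * X + Y ^ 4 / θ ^ 2 := by
  have h := Real.geom_mean_le_arith_mean2_weighted (w₁ := 2/3) (w₂ := 1/3)
    (p₁ := θ * X) (p₂ := Y ^ 4 / θ ^ 2) (by norm_num) (by norm_num)
    (by positivity) (by positivity) (by norm_num)
  have e : (θ * X) ^ ((2:ℝ)/3) * (Y ^ 4 / θ ^ 2) ^ ((1:ℝ)/3) =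
      X ^ ((2:ℝ)/3) * Y ^ ((4:ℝ)/3) := by
    rw [Real.mul_rpow hθ.le hX0, Real.div_rpow (by positivity) (by positivity)]
    rw [← Real.rpow_natCast θ 2, ← Real.rpow_natCast Y 4,
      ← Real.rpow_mul hθ.le, ← Real.rpow_mul hY0]
    have e1 : (((2:ℕ):ℝ) * (1/3)) = (2:ℝ)/3 := by norm_num
    have e2 : (((4:ℕ):ℝ) * (1/3)) = (4:ℝ)/3 := by norm_num
    rw [e1, e2]
    have : θ ^ ((2:ℝ)/3) ≠ 0 := (Real.rpow_pos_of_pos hθ _).ne'
    field_simp
  rw [e] at h
  have h1 : 0 ≤ θ * X := by positivity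
  have h2 : 0 ≤ Y ^ 4 / θ ^ 2 := by positivity
  linarith

/-- the deterministic estimate for one sample -/
theorem det_bound {C : ℝ} (hC : 0 < C) (hT : ∀ X Y : Finset ℂ, NC Y →
    (tripPairs X Y : ℝ) ≤ C * ((X.card : ℝ) ^ ((2:ℝ)/3) * (Y.card : ℝ) ^ ((4:ℝ)/3)
      + X.card * (Y.card : ℝ) ^ ((2:ℝ)/3) + (Y.card : ℝ) ^ 2))
    (cells : ∀ (A R : Finset ℂ), NC A → R ⊆ A → 2 ≤ R.card → ∀ (p : ℝ), 0 < p →
      ∃ (cell : ℂ → ℂ × ℂ) (F : ℂ × ℂ → Finset ℂ),
      (∀ x ∈ A, F (cell x) ⊆ A ∧ A.filter (fun a => ∀ r ∈ R, dist r x < dist a x) ⊆ F (cell x)) ∧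
      ∑ c ∈ A.image cell, Real.exp (p * (F c).card / 8) ≤
        12 * ∑ T ∈ Tri R, Real.exp (p * (Far A T).card / 4) +
        2 * ∑ v ∈ R, ∑ z ∈ (R.erase v).filter (fun z => Disjoint (W 1 A v z) R),
          Real.exp (p * (W 1 A v z).card / 4) +
        2 * ∑ v ∈ R, ∑ z ∈ (R.erase v).filter (fun z => Disjoint (W (-1) A v z) R),
          Real.exp (p * (W (-1) A v z).card / 4))
    (A R : Finset ℂ) (hA : NC A) (hR : R ⊆ A) (p η : ℝ) (hp : 0 < p) (hη : 0 < η) :
    ∑ x ∈ A, ((A.filter (fun a => Reg A x a ∧ ∀ r ∈ R, dist r x < dist a x)).card : ℝ) ≤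
      2 * (A.card : ℝ) ^ 2 * 2 * (1/2 : ℝ) ^ R.card +
      C * (η / p * A.card + (98304 / η ^ 2 + 128) / p ^ 2 * HH A p R +
        (A.card : ℝ) ^ ((2:ℝ)/3) * A.card) := by
  have hH := HH_nonneg A p R
  have hnn : 0 ≤ C * (η / p * A.card + (98304 / η ^ 2 + 128) / p ^ 2 * HH A p R +
        (A.card : ℝ) ^ ((2:ℝ)/3) * A.card) := by positivity
  by_cases h2 : 2 ≤ R.card
  · obtain ⟨cell, F, hF, hsum⟩ := cells A R hA hR h2 p hp
    have hmaps : ∀ x ∈ A, cell x ∈ A.image cell := fun x hx => Finset.mem_image_of_mem _ hx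
    rw [← Finset.sum_fiberwise_of_maps_to hmaps]
    have hcell : ∀ c ∈ A.image cell,
        ∑ x ∈ A.filter (fun x => cell x = c),
          ((A.filter (fun a => Reg A x a ∧ ∀ r ∈ R, dist r x < dist a x)).card : ℝ) ≤
        C * (η / p * ((A.filter (fun x => cell x = c)).card : ℝ) +
          (98304 / η ^ 2 + 128) / p ^ 2 * Real.exp (p * (F c).card / 8) +
          (A.card : ℝ) ^ ((2:ℝ)/3) * ((A.filter (fun x => cell x = c)).card : ℝ)) := by
      intro c hc
      obtain ⟨x0, hx0, rfl⟩ := Finset.mem_image.1 hc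
      set X := A.filter (fun x => cell x = cell x0) with hX
      set Y := F (cell x0) with hY
      have hYA : Y ⊆ A := (hF x0 hx0).1
      have hYNC : NC Y := by
        intro z r
        exact (Finset.card_le_card (Finset.filter_subset_filter _ hYA)).trans (hA z r)
      have h1 : ∑ x ∈ X, ((A.filter (fun a => Reg A x a ∧ ∀ r ∈ R, dist r x < dist a x)).card : ℝ) ≤
          (tripPairs X Y : ℝ) := by
        unfold tripPairs
        push_cast
        apply Finset.sum_le_sum
        intro x hx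
        obtain ⟨hxA, hxc⟩ := Finset.mem_filter.1 hx
        have hsub : A.filter (fun a => Reg A x a ∧ ∀ r ∈ R, dist r x < dist a x) ⊆
            Y.filter (fun a => (cls Y x a).card = 3) := by
          intro a ha
          obtain ⟨haA, haR, har⟩ := Finset.mem_filter.1 ha
          have hFx := (hF x hxA).2
          rw [hxc] at hFx
          have key : ∀ b ∈ A, dist b x = dist a x → b ∈ Y := by
            intro b hb hbd
            apply hFx
            rw [Finset.mem_filter]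
            exact ⟨hb, fun r hr => by rw [hbd]; exact har r hr⟩
          rw [Finset.mem_filter]
          refine ⟨key a haA rfl, ?_⟩
          have : cls Y x a = cls A x a := by
            ext b
            unfold cls
            rw [Finset.mem_filter, Finset.mem_filter]
            constructor
            · rintro ⟨h1, h2⟩; exact ⟨hYA h1, h2⟩
            · rintro ⟨h1, h2⟩; exact ⟨key b h1 h2, h2⟩
          rw [this]; exact haR
        exact_mod_cast Finset.card_le_card hsub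
      refine h1.trans ((hT X Y hYNC).trans ?_)
      apply mul_le_mul_of_nonneg_left _ hC.le
      have hX0 : (0:ℝ) ≤ X.card := Nat.cast_nonneg _
      have hY0 : (0:ℝ) ≤ Y.card := Nat.cast_nonneg _
      have hθ : 0 < η / p := by positivity
      -- exponential bounds
      have hu0 : 0 ≤ p * (Y.card : ℝ) / 8 := by positivity
      have he4 : (Y.card : ℝ) ^ 4 ≤ 98304 / p ^ 4 * Real.exp (p * Y.card / 8) := by
        have := Real.pow_div_factorial_le_exp (p * (Y.card : ℝ) / 8) hu0 4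
        have h24 : ((Nat.factorial 4 : ℕ) : ℝ) = 24 := by norm_num [Nat.factorial]
        rw [h24, div_le_iff₀ (by norm_num)] at this
        have e : (p * (Y.card : ℝ) / 8) ^ 4 = p ^ 4 * (Y.card : ℝ) ^ 4 / 4096 := by ring
        rw [e] at this
        rw [div_mul_eq_mul_div, le_div_iff₀ (by positivity)]
        linarith
      have he2 : (Y.card : ℝ) ^ 2 ≤ 128 / p ^ 2 * Real.exp (p * Y.card / 8) := by
        have := Real.pow_div_factorial_le_exp (p * (Y.card : ℝ) / 8) hu0 2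
        have h24 : ((Nat.factorial 2 : ℕ) : ℝ) = 2 := by norm_num [Nat.factorial]
        rw [h24, div_le_iff₀ (by norm_num)] at this
        have e : (p * (Y.card : ℝ) / 8) ^ 2 = p ^ 2 * (Y.card : ℝ) ^ 2 / 64 := by ring
        rw [e] at this
        rw [div_mul_eq_mul_div, le_div_iff₀ (by positivity)]
        linarith
      have hAM := amgm (η / p) (X.card : ℝ) (Y.card : ℝ) hθ hX0 hY0
      have h4' : (Y.card : ℝ) ^ 4 / (η / p) ^ 2 ≤ 98304 / η ^ 2 / p ^ 2 * Real.exp (p * Y.card / 8) := by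
        rw [div_le_iff₀ (by positivity)]
        refine he4.trans (le_of_eq ?_)
        field_simp
      have hYA' : (Y.card : ℝ) ^ ((2:ℝ)/3) ≤ (A.card : ℝ) ^ ((2:ℝ)/3) := by
        apply Real.rpow_le_rpow hY0 _ (by norm_num)
        exact_mod_cast Finset.card_le_card hYA
      have h5 : (X.card : ℝ) * (Y.card : ℝ) ^ ((2:ℝ)/3) ≤ (A.card : ℝ) ^ ((2:ℝ)/3) * X.card := by
        rw [mul_comm]
        exact mul_le_mul_of_nonneg_right hYA' hX0
      have e5 : (98304 / η ^ 2 + 128) / p ^ 2 * Real.exp (p * Y.card / 8) =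
          98304 / η ^ 2 / p ^ 2 * Real.exp (p * Y.card / 8) + 128 / p ^ 2 * Real.exp (p * Y.card / 8) := by
        ring
      rw [e5]
      linarith
    have hfib : ∑ c ∈ A.image cell, ((A.filter (fun x => cell x = c)).card : ℝ) = A.card := by
      have := Finset.card_eq_sum_card_fiberwise (s := A) (t := A.image cell) (f := cell)
        (fun x hx => hmaps x hx)
      exact_mod_cast this.symm
    refine (Finset.sum_le_sum hcell).trans ?_
    rw [← Finset.mul_sum, Finset.sum_add_distrib, Finset.sum_add_distrib, ← Finset.mul_sum,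
      ← Finset.mul_sum, ← Finset.mul_sum, hfib]
    have h3 : (98304 / η ^ 2 + 128) / p ^ 2 * ∑ c ∈ A.image cell, Real.exp (p * (F c).card / 8) ≤
        (98304 / η ^ 2 + 128) / p ^ 2 * HH A p R :=
      mul_le_mul_of_nonneg_left hsum (by positivity)
    have h4 : 0 ≤ 2 * (A.card : ℝ) ^ 2 * 2 * (1/2 : ℝ) ^ R.card := by positivity
    have h5 := mul_le_mul_of_nonneg_left h3 hC.le
    nlinarith
  · have h1 : ∑ x ∈ A, ((A.filter (fun a => Reg A x a ∧ ∀ r ∈ R, dist r x < dist a x)).card : ℝ) ≤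
        ∑ x ∈ A, (A.card : ℝ) :=
      Finset.sum_le_sum fun x _ => by exact_mod_cast Finset.card_filter_le _ _
    rw [Finset.sum_const, nsmul_eq_mul] at h1
    have h3 : R.card ≤ 1 := by omega
    have h4 : (1/2 : ℝ) ≤ (1/2 : ℝ) ^ R.card := by
      have := pow_le_pow_of_le_one (by norm_num : (0:ℝ) ≤ 1/2) (by norm_num) h3
      simpa using this
    have h5 : (A.card : ℝ) ^ 2 ≤ 2 * (A.card : ℝ) ^ 2 * 2 * (1/2 : ℝ) ^ R.card := by
      nlinarith [sq_nonneg (A.card : ℝ)]
    nlinarith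

/-- the conclusion of the far mass theorem -/
def FarV (A : Finset ℂ) (d : ℝ) : Finset ℂ :=
  A.filter (fun v => ∃ u : ℂ, u ≠ 0 ∧
      ((A.filter (fun a => 0 ≤ (a - v).re * u.re + (a - v).im * u.im)).card : ℝ) ≤ d * A.card)

theorem depth_spec (A : Finset ℂ) (v : ℂ) : ∃ u : ℂ, u ≠ 0 ∧
    depth A v = ((A.erase v).filter (fun a => 0 ≤ (a - v).re * u.re + (a - v).im * u.im)).card := by
  have h := Nat.sInf_mem (s := {k : ℕ | ∃ u : ℂ, u ≠ 0 ∧
    k = ((A.erase v).filter (fun a => 0 ≤ (a - v).re * u.re + (a - v).im * u.im)).card})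
    ⟨_, 1, one_ne_zero, rfl⟩
  exact h

theorem far_mass_re
    (ex_SE : ∀ (A : Finset ℂ) (q : ℝ), 0 < q → q ≤ 1/2 →
      ex q A (fun R => ((R.filter (fun v => SE R v)).card : ℝ)) ≤
        q * ∑ v ∈ A, 9 * Real.exp (-q * depth A v / 2))
    (ex_hull : ∀ (ε : ℝ), (ε = 1 ∨ ε = -1) → ∀ (A : Finset ℂ) (p : ℝ), 0 < p → p ≤ 1/2 →
      ex p A (fun R => ∑ v ∈ R, ∑ z ∈ (R.erase v).filter (fun z => Disjoint (W ε A v z) R),
        Real.exp (p * (W ε A v z).card / 4)) ≤
        p * ∑ v ∈ A, 11 * Real.exp (-p * depth A v / 4))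
    (Tri_card : ∀ (R : Finset ℂ), NC R → (∀ a ∈ R, ∀ b ∈ R, a.re = b.re → a = b) →
      (Tri R).card ≤ 2 * (R.filter (fun v => SE R v)).card)
    (ex_Tri : ∀ (A : Finset ℂ) (p : ℝ), 0 < p → p ≤ 1/2 →
      ex p A (fun R => ∑ T ∈ Tri R, Real.exp (p * (Far A T).card / 4)) ≤
        8 * ex (p/2) A (fun R => ((Tri R).card : ℝ)))
    (T_lemma : ∃ C : ℝ, 0 < C ∧ ∀ X Y : Finset ℂ, NC Y →
      (tripPairs X Y : ℝ) ≤ C * ((X.card : ℝ) ^ ((2:ℝ)/3) * (Y.card : ℝ) ^ ((4:ℝ)/3)
        + X.card * (Y.card : ℝ) ^ ((2:ℝ)/3) + (Y.card : ℝ) ^ 2))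
    (cells : ∀ (A R : Finset ℂ), NC A → R ⊆ A → 2 ≤ R.card → ∀ (p : ℝ), 0 < p →
      ∃ (cell : ℂ → ℂ × ℂ) (F : ℂ × ℂ → Finset ℂ),
      (∀ x ∈ A, F (cell x) ⊆ A ∧ A.filter (fun a => ∀ r ∈ R, dist r x < dist a x) ⊆ F (cell x)) ∧
      ∑ c ∈ A.image cell, Real.exp (p * (F c).card / 8) ≤
        12 * ∑ T ∈ Tri R, Real.exp (p * (Far A T).card / 4) +
        2 * ∑ v ∈ R, ∑ z ∈ (R.erase v).filter (fun z => Disjoint (W 1 A v z) R),
          Real.exp (p * (W 1 A v z).card / 4) +
        2 * ∑ v ∈ R, ∑ z ∈ (R.erase v).filter (fun z => Disjoint (W (-1) A v z) R),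
          Real.exp (p * (W (-1) A v z).card / 4)) :
    ∃ β : ℝ, 0 < β ∧ ∀ d : ℝ, 0 < d → ∃ c : ℝ, 0 < c ∧ ∃ N : ℕ, ∀ A : Finset ℂ,
    NC A → (∀ a ∈ A, ∀ b ∈ A, a.re = b.re → a = b) → N ≤ A.card →
    (∀ x ∈ A, (D A x : ℝ) ≤ (1/3 + c) * A.card) →
    β * A.card ≤ ((FarV A d).card : ℝ) := by
  obtain ⟨C, hC, hT⟩ := T_lemma
  set η : ℝ := 1 / (32 * C) with hη
  have hη0 : 0 < η := by positivity
  set K : ℝ := C * 908 * (98304 / η ^ 2 + 128) with hK
  have hK0 : 0 < K := by positivity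
  set ξ : ℝ := 1 / (16 * K) with hξ
  have hξ0 : 0 < ξ := by positivity
  set L : ℝ := 8 / ξ with hL
  have hL0 : 0 < L := by positivity
  refine ⟨ξ / 2, by positivity, fun d hd => ?_⟩
  set P : ℝ := max 120 (2 * L / d) with hP
  have hP120 : 120 ≤ P := le_max_left _ _
  have hPd : 2 * L / d ≤ P := le_max_right _ _
  have hP0 : 0 < P := by linarith
  refine ⟨1 / (24 * P), by positivity, ?_⟩
  set N : ℕ := ⌈28 * P⌉₊ + ⌈(64 * C * P) ^ 3⌉₊ + ⌈2 / d⌉₊ with hN
  refine ⟨N, fun A hA hre hNA hD => ?_⟩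
  set n : ℝ := (A.card : ℝ) with hn
  have hNn : (⌈28 * P⌉₊ : ℝ) + ⌈(64 * C * P) ^ 3⌉₊ + ⌈2 / d⌉₊ ≤ n := by
    have : (N : ℝ) ≤ n := by rw [hn]; exact_mod_cast hNA
    rw [hN] at this
    push_cast at this
    exact this
  have c1 : 28 * P ≤ (⌈28 * P⌉₊ : ℝ) := Nat.le_ceil _
  have c2 : (64 * C * P) ^ 3 ≤ (⌈(64 * C * P) ^ 3⌉₊ : ℝ) := Nat.le_ceil _
  have c3 : 2 / d ≤ (⌈2 / d⌉₊ : ℝ) := Nat.le_ceil _
  have c4 : (0:ℝ) ≤ (⌈28 * P⌉₊ : ℝ) := Nat.cast_nonneg _
  have c5 : (0:ℝ) ≤ (⌈(64 * C * P) ^ 3⌉₊ : ℝ) := Nat.cast_nonneg _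
  have c6 : (0:ℝ) ≤ (⌈2 / d⌉₊ : ℝ) := Nat.cast_nonneg _
  have hn28 : 28 * P ≤ n := by linarith
  have hn3 : (64 * C * P) ^ 3 ≤ n := by linarith
  have hnd : 2 / d ≤ n := by linarith
  have hn0 : 0 < n := by linarith
  set p : ℝ := P / n with hp
  have hp0 : 0 < p := by positivity
  have hpn : p * n = P := by rw [hp]; field_simp
  have hp1 : p ≤ 1 / 2 := by
    rw [hp, div_le_iff₀ hn0]; linarith
  have h1p : 1 / p = n / P := by rw [hp]; field_simp
  -- lower bound
  have hlow : n * (1 / (8 * p)) ≤ ex p A (fun R => ∑ x ∈ A,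
      ((A.filter (fun a => Reg A x a ∧ ∀ r ∈ R, dist r x < dist a x)).card : ℝ)) := by
    rw [ex_sum]
    have : n * (1 / (8 * p)) = ∑ x ∈ A, (1 / (8 * p)) := by
      rw [Finset.sum_const, nsmul_eq_mul]
    rw [this]
    apply Finset.sum_le_sum
    intro x hx
    apply far_count_lower A hA x hx (6 * (1 / (24 * P)) * n + 2) p hp0 hp1
      (irregular_count A hA _ x hx (hD x hx))
    · have e1 : 6 * (1 / (24 * P)) * n = n / (4 * P) := by field_simp; ring
      have e2 : 1 / (2 * p) = n / (2 * P) := by rw [hp]; field_simp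
      rw [e1, e2]
      have e3 : n / (2 * P) = n / (4 * P) + n / (4 * P) := by field_simp; ring
      have e4 : 7 ≤ n / (4 * P) := by rw [le_div_iff₀ (by positivity)]; linarith
      linarith
    · rw [h1p, div_le_iff₀ hP0]
      nlinarith
  -- upper bound
  have hup : ex p A (fun R => ∑ x ∈ A,
      ((A.filter (fun a => Reg A x a ∧ ∀ r ∈ R, dist r x < dist a x)).card : ℝ)) ≤
      ex p A (fun R => 2 * n ^ 2 * 2 * (1/2 : ℝ) ^ R.card +
      C * (η / p * n + (98304 / η ^ 2 + 128) / p ^ 2 * HH A p R + n ^ ((2:ℝ)/3) * n)) :=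
    ex_mono hp0.le (by linarith) A
      (fun R hR => det_bound hC hT cells A R hA hR p η hp0 hη0)
  have hexp : ex p A (fun R => 2 * n ^ 2 * 2 * (1/2 : ℝ) ^ R.card +
      C * (η / p * n + (98304 / η ^ 2 + 128) / p ^ 2 * HH A p R + n ^ ((2:ℝ)/3) * n)) =
      2 * n ^ 2 * 2 * (p * (1/2) + (1 - p)) ^ A.card +
      C * (η / p * n + (98304 / η ^ 2 + 128) / p ^ 2 * ex p A (HH A p) + n ^ ((2:ℝ)/3) * n) := by
    rw [ex_add, ex_mul, ex_mul, ex_pow, ex_add, ex_add, ex_const, ex_mul, ex_const]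
  have hHH := ex_HH ex_SE ex_hull Tri_card ex_Tri A hA hre p hp0 hp1
  set S := ∑ v ∈ A, Real.exp (-p * depth A v / 4) with hS
  have hbad : (p * (1/2) + (1 - p)) ^ A.card ≤ 1 / (256 * P) := by
    have e1 : p * (1/2) + (1 - p) = 1 - p / 2 := by ring
    have e2 : 1 - p / 2 ≤ Real.exp (-(p / 2)) := by
      have := Real.add_one_le_exp (-(p / 2)); linarith
    have e3 : (1 - p / 2) ^ A.card ≤ Real.exp (-(p / 2)) ^ A.card :=
      pow_le_pow_left₀ (by linarith) e2 _
    rw [← Real.exp_nat_mul] at e3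
    have e4 : (A.card : ℝ) * (-(p / 2)) = -(P / 2) := by
      rw [← hn, ← hpn]; ring
    rw [e4] at e3
    rw [e1]
    refine e3.trans ?_
    rw [Real.exp_neg, ← one_div]
    apply one_div_le_one_div_of_le (by positivity)
    have h3 := Real.pow_div_factorial_le_exp (P / 2) (by positivity) 3
    have h6 : ((Nat.factorial 3 : ℕ) : ℝ) = 6 := by norm_num [Nat.factorial]
    rw [h6] at h3
    refine le_trans ?_ h3
    rw [le_div_iff₀ (by norm_num)]
    have hPP : 120 * 120 ≤ P * P := mul_le_mul hP120 hP120 (by norm_num) hP0.le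
    have : (P / 2) ^ 3 = P * (P * P) / 8 := by ring
    rw [this]
    nlinarith
  have hn23 : 64 * C * P * n ^ ((2:ℝ)/3) ≤ n := by
    have h1 : 64 * C * P ≤ n ^ ((1:ℝ)/3) := by
      have h2 := Real.rpow_le_rpow (by positivity) hn3 (show (0:ℝ) ≤ 1/3 by norm_num)
      have h3 : ((64 * C * P) ^ 3) ^ ((1:ℝ)/3) = 64 * C * P := by
        rw [← Real.rpow_natCast, ← Real.rpow_mul (by positivity)]
        norm_num
      rwa [h3] at h2
    calc 64 * C * P * n ^ ((2:ℝ)/3) ≤ n ^ ((1:ℝ)/3) * n ^ ((2:ℝ)/3) :=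
          mul_le_mul_of_nonneg_right h1 (Real.rpow_nonneg hn0.le _)
      _ = n := by rw [← Real.rpow_add hn0]; norm_num
  have hSlow : ξ * n ≤ S := by
    have hchain := hlow.trans (hup.trans hexp.le)
    have e1 : n * (1 / (8 * p)) = n ^ 2 / (8 * P) := by rw [hp]; field_simp
    have e2 : C * (η / p * n) = n ^ 2 / (32 * P) := by rw [hp, hη]; field_simp
    have e3 : (98304 / η ^ 2 + 128) / p ^ 2 * ex p A (HH A p) ≤
        (98304 / η ^ 2 + 128) / p ^ 2 * (908 * p * S) :=
      mul_le_mul_of_nonneg_left hHH (by positivity)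
    have e4 : C * ((98304 / η ^ 2 + 128) / p ^ 2 * (908 * p * S)) = K * S * n / P := by
      have : C * ((98304 / η ^ 2 + 128) / p ^ 2 * (908 * p * S)) = K * S / p := by
        rw [hK]; field_simp
      rw [this, hp]; field_simp
    have e5 : C * (n ^ ((2:ℝ)/3) * n) ≤ n ^ 2 / (64 * P) := by
      rw [le_div_iff₀ (by positivity)]
      calc C * (n ^ ((2:ℝ)/3) * n) * (64 * P) = (64 * C * P * n ^ ((2:ℝ)/3)) * n := by ring
        _ ≤ n * n := mul_le_mul_of_nonneg_right hn23 hn0.le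
        _ = n ^ 2 := by ring
    have e6 : 2 * n ^ 2 * 2 * (p * (1/2) + (1 - p)) ^ A.card ≤ n ^ 2 / (64 * P) := by
      calc 2 * n ^ 2 * 2 * (p * (1/2) + (1 - p)) ^ A.card ≤ 2 * n ^ 2 * 2 * (1 / (256 * P)) :=
            mul_le_mul_of_nonneg_left hbad (by positivity)
        _ = n ^ 2 / (64 * P) := by field_simp; norm_num
    have e7 := mul_le_mul_of_nonneg_left e3 hC.le
    rw [e4] at e7
    have hmain : n ^ 2 / (8 * P) ≤ n ^ 2 / (64 * P) + (n ^ 2 / (32 * P) + K * S * n / P +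
        n ^ 2 / (64 * P)) := by
      rw [e1] at hchain
      have e8 : C * (η / p * n + (98304 / η ^ 2 + 128) / p ^ 2 * ex p A (HH A p) + n ^ ((2:ℝ)/3) * n)
          = C * (η / p * n) + C * ((98304 / η ^ 2 + 128) / p ^ 2 * ex p A (HH A p)) +
            C * (n ^ ((2:ℝ)/3) * n) := by ring
      rw [e8, e2] at hchain
      linarith
    have h9 : n ^ 2 / (8 * P) - n ^ 2 / (64 * P) - n ^ 2 / (32 * P) - n ^ 2 / (64 * P) =
        n ^ 2 / (16 * P) := by field_simp; ring
    have h10 : n ^ 2 / (16 * P) ≤ K * S * n / P := by linarith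
    rw [div_le_div_iff₀ (by positivity) hP0] at h10
    have h11 : n ≤ 16 * K * S := by
      have h12 : (n * P) * n ≤ (n * P) * (16 * K * S) := by
        calc (n * P) * n = n ^ 2 * P := by ring
          _ ≤ K * S * n * (16 * P) := h10
          _ = (n * P) * (16 * K * S) := by ring
      exact le_of_mul_le_mul_left h12 (by positivity)
    rw [hξ, div_mul_eq_mul_div, one_mul, div_le_iff₀ (by positivity)]
    linarith
  -- points of small depth
  set G := A.filter (fun v => p * depth A v ≤ L) with hG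
  have hGsub : G ⊆ FarV A d := by
    intro v hv
    obtain ⟨hvA, hvd⟩ := Finset.mem_filter.1 hv
    obtain ⟨u, hu, hdep⟩ := depth_spec A v
    refine Finset.mem_filter.2 ⟨hvA, u, hu, ?_⟩
    have h1 : (A.filter (fun a => 0 ≤ (a - v).re * u.re + (a - v).im * u.im)).card ≤ depth A v + 1 := by
      rw [hdep]
      have : A.filter (fun a => 0 ≤ (a - v).re * u.re + (a - v).im * u.im) ⊆
          insert v ((A.erase v).filter (fun a => 0 ≤ (a - v).re * u.re + (a - v).im * u.im)) := by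
        intro a ha
        obtain ⟨ha1, ha2⟩ := Finset.mem_filter.1 ha
        by_cases hav : a = v
        · rw [hav]; exact Finset.mem_insert_self _ _
        · exact Finset.mem_insert_of_mem (Finset.mem_filter.2 ⟨Finset.mem_erase.2 ⟨hav, ha1⟩, ha2⟩)
      exact (Finset.card_le_card this).trans (Finset.card_insert_le _ _)
    have h2 : ((A.filter (fun a => 0 ≤ (a - v).re * u.re + (a - v).im * u.im)).card : ℝ) ≤
        (depth A v : ℝ) + 1 := by exact_mod_cast h1
    have h3 : (depth A v : ℝ) ≤ d * n / 2 := by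
      have h4 : P / n * (depth A v : ℝ) ≤ L := hvd
      have h5 : P * (depth A v : ℝ) ≤ L * n := by
        rw [div_mul_eq_mul_div, div_le_iff₀ hn0] at h4; exact h4
      have h6 : 2 * L ≤ P * d := by rw [div_le_iff₀ hd] at hPd; exact hPd
      have h7 : P * (depth A v : ℝ) ≤ P * (d * n / 2) := by nlinarith
      exact le_of_mul_le_mul_left h7 hP0
    have h8 : 1 ≤ d * n / 2 := by
      rw [div_le_iff₀ hd] at hnd
      linarith
    linarith
  have hsplit : S ≤ (G.card : ℝ) + ξ / 2 * n := by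
    rw [hS, ← Finset.sum_filter_add_sum_filter_not A (fun v => p * depth A v ≤ L)]
    apply add_le_add
    · calc ∑ v ∈ A.filter (fun v => p * depth A v ≤ L), Real.exp (-p * depth A v / 4)
          ≤ ∑ v ∈ A.filter (fun v => p * depth A v ≤ L), (1:ℝ) := by
            apply Finset.sum_le_sum
            intro v _
            rw [← Real.exp_zero]
            apply Real.exp_le_exp.2
            have : 0 ≤ p * (depth A v : ℝ) := by positivity
            linarith
        _ = (G.card : ℝ) := by rw [Finset.sum_const, nsmul_eq_mul, mul_one]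
    · calc ∑ v ∈ A.filter (fun v => ¬ p * depth A v ≤ L), Real.exp (-p * depth A v / 4)
          ≤ ∑ v ∈ A.filter (fun v => ¬ p * depth A v ≤ L), (ξ / 2) := by
            apply Finset.sum_le_sum
            intro v hv
            have h1 := not_le.1 (Finset.mem_filter.1 hv).2
            have h2 : -p * (depth A v : ℝ) / 4 ≤ -(2 / ξ) := by
              have : L / 4 = 2 / ξ := by rw [hL]; ring
              rw [← this]; linarith
            refine (Real.exp_le_exp.2 h2).trans ?_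
            rw [Real.exp_neg, inv_le_comm₀ (Real.exp_pos _) (by positivity), inv_div]
            have := Real.add_one_le_exp (2 / ξ)
            linarith
        _ = ((A.filter (fun v => ¬ p * depth A v ≤ L)).card : ℝ) * (ξ / 2) := by
            rw [Finset.sum_const, nsmul_eq_mul]
        _ ≤ n * (ξ / 2) := by
            apply mul_le_mul_of_nonneg_right _ (by positivity)
            rw [hn]
            exact_mod_cast Finset.card_filter_le _ _
        _ = ξ / 2 * n := by ring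
  have hfin : (G.card : ℝ) ≤ ((FarV A d).card : ℝ) := by exact_mod_cast Finset.card_le_card hGsub
  linarith

/-! ### rotation to distinct real parts -/

theorem exists_rot (A : Finset ℂ) : ∃ w : ℂ, ‖w‖ = 1 ∧
    ∀ a ∈ A, ∀ b ∈ A, (w * a).re = (w * b).re → a = b := by
  obtain ⟨t, ht⟩ := Infinite.exists_notMem_finset
    (A.offDiag.image (fun q : ℂ × ℂ => (q.1 - q.2).re / (q.1 - q.2).im))
  have h0 : (1 + t * Complex.I : ℂ) ≠ 0 := by
    intro h
    have := congrArg Complex.re h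
    simp at this
  have hn : 0 < ‖(1 + t * Complex.I : ℂ)‖ := norm_pos_iff.2 h0
  refine ⟨(‖(1 + t * Complex.I : ℂ)‖ : ℂ)⁻¹ * (1 + t * Complex.I), ?_, ?_⟩
  · rw [norm_mul, norm_inv, Complex.norm_real, norm_norm]
    exact inv_mul_cancel₀ hn.ne'
  · intro a ha b hb hab
    by_contra hne
    have h1 : ((1 + t * Complex.I) * (a - b)).re = 0 := by
      have e : ∀ z : ℂ, ((‖(1 + t * Complex.I : ℂ)‖ : ℂ)⁻¹ * (1 + t * Complex.I) * z).re =
          ‖(1 + t * Complex.I : ℂ)‖⁻¹ * ((1 + t * Complex.I) * z).re := by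
        intro z
        rw [mul_assoc, ← Complex.ofReal_inv, Complex.re_ofReal_mul]
      rw [e, e] at hab
      have h2 := mul_left_cancel₀ (inv_ne_zero hn.ne') hab
      rw [mul_sub, Complex.sub_re, h2, sub_self]
    have h3 : (a - b).re - t * (a - b).im = 0 := by
      rw [← h1]
      simp
    by_cases him : (a - b).im = 0
    · rw [him, mul_zero, sub_zero] at h3
      exact hne (sub_eq_zero.1 (Complex.ext h3 him))
    · apply ht
      refine Finset.mem_image.2 ⟨(a, b), Finset.mem_offDiag.2 ⟨ha, hb, hne⟩, ?_⟩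
      simp only
      rw [div_eq_iff him]
      linarith

theorem far_mass_of
    (h : ∃ β : ℝ, 0 < β ∧ ∀ d : ℝ, 0 < d → ∃ c : ℝ, 0 < c ∧ ∃ N : ℕ, ∀ A : Finset ℂ,
    NC A → (∀ a ∈ A, ∀ b ∈ A, a.re = b.re → a = b) → N ≤ A.card →
    (∀ x ∈ A, (D A x : ℝ) ≤ (1/3 + c) * A.card) →
    β * A.card ≤ ((FarV A d).card : ℝ)) :
    ∃ β : ℝ, 0 < β ∧ ∀ d : ℝ, 0 < d → ∃ c : ℝ, 0 < c ∧ ∃ N : ℕ, ∀ A : Finset ℂ,
    NC A → N ≤ A.card → (∀ x ∈ A, (D A x : ℝ) ≤ (1/3 + c) * A.card) →
    β * A.card ≤ ((A.filter (fun v => ∃ u : ℂ, u ≠ 0 ∧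
      ((A.filter (fun a => 0 ≤ (a - v).re * u.re + (a - v).im * u.im)).card : ℝ) ≤ d * A.card)).card : ℝ) := by
  obtain ⟨β, hβ, hb⟩ := h
  refine ⟨β, hβ, fun d hd => ?_⟩
  obtain ⟨c, hc, N, hN⟩ := hb d hd
  refine ⟨c, hc, N, fun A hA hNA hD => ?_⟩
  obtain ⟨w, hw, hwre⟩ := exists_rot A
  have hw0 : w ≠ 0 := by
    rintro rfl; simp at hw
  have hinj : Function.Injective (fun z : ℂ => w * z) := mul_right_injective₀ hw0
  have hdist : ∀ a b : ℂ, dist (w * a) (w * b) = dist a b := by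
    intro a b
    rw [dist_eq_norm, dist_eq_norm, ← mul_sub, norm_mul, hw, one_mul]
  set A' := A.image (fun z : ℂ => w * z) with hA'
  have hcard : A'.card = A.card := Finset.card_image_of_injective _ hinj
  have hNC : NC A' := by
    intro z r
    have : A'.filter (fun p => dist p z = r) =
        (A.filter (fun p => dist p (w⁻¹ * z) = r)).image (fun z : ℂ => w * z) := by
      rw [hA', Finset.filter_image]
      congr 1
      apply Finset.filter_congr
      intro a _
      have : dist (w * a) z = dist a (w⁻¹ * z) := by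
        rw [← hdist a (w⁻¹ * z), mul_inv_cancel_left₀ hw0]
      rw [this]
    rw [this, Finset.card_image_of_injective _ hinj]
    exact hA _ _
  have hre : ∀ a ∈ A', ∀ b ∈ A', a.re = b.re → a = b := by
    intro a' ha' b' hb' hab
    obtain ⟨a, ha, rfl⟩ := Finset.mem_image.1 ha'
    obtain ⟨b, hb, rfl⟩ := Finset.mem_image.1 hb'
    rw [hwre a ha b hb hab]
  have hD' : ∀ x ∈ A', (D A' x : ℝ) ≤ (1/3 + c) * A'.card := by
    intro x' hx'
    obtain ⟨x, hx, rfl⟩ := Finset.mem_image.1 hx'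
    rw [hcard]
    have : D A' (w * x) = D A x := by
      unfold D
      rw [hA', ← Finset.image_erase hinj, Finset.image_image]
      congr 1
      apply Finset.image_congr
      intro y _
      exact hdist x y
    rw [this]
    exact hD x hx
  have key := hN A' hNC hre (by rw [hcard]; exact hNA) hD'
  rw [hcard] at key
  refine key.trans ?_
  have hle : (FarV A' d).card ≤ (A.filter (fun v => ∃ u : ℂ, u ≠ 0 ∧
      ((A.filter (fun a => 0 ≤ (a - v).re * u.re + (a - v).im * u.im)).card : ℝ) ≤ d * A.card)).card := by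
    have hsub : FarV A' d ⊆ (A.filter (fun v => ∃ u : ℂ, u ≠ 0 ∧
      ((A.filter (fun a => 0 ≤ (a - v).re * u.re + (a - v).im * u.im)).card : ℝ) ≤
        d * A.card)).image (fun z : ℂ => w * z) := by
      intro v' hv'
      obtain ⟨hvA, u', hu', hcardu⟩ := Finset.mem_filter.1 hv'
      obtain ⟨v, hv, rfl⟩ := Finset.mem_image.1 hvA
      refine Finset.mem_image.2 ⟨v, Finset.mem_filter.2 ⟨hv, starRingEnd ℂ w * u', ?_, ?_⟩, rfl⟩
      · exact mul_ne_zero ((map_ne_zero _).2 hw0) hu'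
      · have e : (A'.filter (fun a => 0 ≤ (a - w * v).re * u'.re + (a - w * v).im * u'.im)) =
            (A.filter (fun a => 0 ≤ (a - v).re * (starRingEnd ℂ w * u').re +
              (a - v).im * (starRingEnd ℂ w * u').im)).image (fun z : ℂ => w * z) := by
          rw [hA', Finset.filter_image]
          congr 1
          apply Finset.filter_congr
          intro a _
          have : (w * a - w * v).re * u'.re + (w * a - w * v).im * u'.im =
              (a - v).re * (starRingEnd ℂ w * u').re + (a - v).im * (starRingEnd ℂ w * u').im := by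
            simp only [Complex.mul_re, Complex.mul_im, Complex.sub_re, Complex.sub_im,
              Complex.conj_re, Complex.conj_im]
            ring
          rw [this]
        rw [e, Finset.card_image_of_injective _ hinj, hcard] at hcardu
        exact hcardu
    exact (Finset.card_le_card hsub).trans (Finset.card_image_le)
  exact_mod_cast hle

end

end Pool.Agent.DD.FD
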