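import Mathlib

/-!
# Determinant maximising matrix of a graph with a negative entry

Helper file for MP_e7c87c_co. `kkt` is the sufficient optimality condition (with uniqueness), and the
rest is the explicit graph: core vertices `0,1,2,3`, core edges `0-2`, `1-3`, and 185, 222, 185
common neighbours of the pairs `(0,1)`, `(1,2)`, `(2,3)`; the value of `x` is `1/10`.
In the field picture every extra vertex `g` on the pair `(a,b)` is `X_g = (X_a+X_b)/15 + noise`.
-/

open Matrix

namespace Pool.Agent.Lib_helper96.DetMax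

variable {V : Type*} [Fintype V] [DecidableEq V]

/-- feasible matrices -/
def Feasible (G : SimpleGraph V) (x : ℝ) : Set (Matrix V V ℝ) :=
  {M | M.PosDef ∧ (∀ v, M v v = 1) ∧ ∀ u v, G.Adj u v → M u v = x}

def IsDetMax (G : SimpleGraph V) (x : ℝ) (A : Matrix V V ℝ) : Prop :=
  A ∈ Feasible G x ∧ ∀ M ∈ Feasible G x, M.det ≤ A.det

lemma det_le_one (S : Matrix V V ℝ) (hS : S.PosDef) (ht : S.trace = Fintype.card V) :
    S.det ≤ 1 ∧ (S.det = 1 → S = 1) := by
  have hH := hS.isHermitian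
  have hpos := hS.eigenvalues_pos
  have hdet : S.det = ∏ i, hH.eigenvalues i := by
    have := hH.det_eq_prod_eigenvalues
    simpa using this
  have htr : ∑ i, hH.eigenvalues i = Fintype.card V := by
    rw [← ht]
    have := hH.trace_eq_sum_eigenvalues
    simpa using this.symm
  have hexp : ∏ i, Real.exp (hH.eigenvalues i - 1) = 1 := by
    rw [← Real.exp_sum]
    rw [Finset.sum_sub_distrib, htr]
    simp
  have hle : ∀ i, hH.eigenvalues i ≤ Real.exp (hH.eigenvalues i - 1) := by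
    intro i
    have := Real.add_one_le_exp (hH.eigenvalues i - 1)
    linarith
  constructor
  · rw [hdet, ← hexp]
    exact Finset.prod_le_prod (fun i _ => (hpos i).le) (fun i _ => hle i)
  · intro h1
    have hall : ∀ i, hH.eigenvalues i = 1 := by
      by_contra hne
      push Not at hne
      obtain ⟨i, hi⟩ := hne
      have hlt : ∏ i, hH.eigenvalues i < ∏ i, Real.exp (hH.eigenvalues i - 1) := by
        apply Finset.prod_lt_prod (fun i _ => hpos i) (fun i _ => hle i)
        refine ⟨i, Finset.mem_univ _, ?_⟩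
        have := Real.add_one_lt_exp (x := hH.eigenvalues i - 1) (by intro h; apply hi; linarith)
        linarith
      rw [hexp, ← hdet, h1] at hlt
      exact lt_irrefl _ hlt
    have hsp := hH.spectral_theorem
    have hd : (diagonal (RCLike.ofReal ∘ hH.eigenvalues) : Matrix V V ℝ) = 1 := by
      rw [← diagonal_one]
      congr 1
      ext i
      simp [hall i]
    rw [hd] at hsp
    rw [hsp]
    simp

/-- KKT sufficient condition (with uniqueness). -/
theorem kkt (G : SimpleGraph V) (x : ℝ) (A K : Matrix V V ℝ) (hA : A ∈ Feasible G x)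
    (hKA : K * A = 1) (hK : ∀ u v, u ≠ v → ¬ G.Adj u v → K u v = 0) :
    IsDetMax G x A ∧ ∀ B, IsDetMax G x B → B = A := by
  have hAK : A * K = 1 := mul_eq_one_comm.mp hKA
  have hKinv : K = A⁻¹ := (Matrix.inv_eq_left_inv hKA).symm
  have hKpd : K.PosDef := by rw [hKinv]; exact hA.1.inv
  obtain ⟨B, hB⟩ : ∃ B : Matrix V V ℝ, K = Bᴴ * B := by
    open scoped MatrixOrder in
    exact CStarAlgebra.nonneg_iff_eq_star_mul_self.mp hKpd.posSemidef.nonneg
  have htrace : ∀ M ∈ Feasible G x, (M * K).trace = Fintype.card V := by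
    intro M hM
    have h1 : (M * K).trace = (A * K).trace := by
      simp only [Matrix.trace, Matrix.diag, Matrix.mul_apply]
      refine Finset.sum_congr rfl (fun i _ => Finset.sum_congr rfl (fun j _ => ?_))
      by_cases hij : i = j
      · subst hij; rw [hM.2.1, hA.2.1]
      · by_cases hadj : G.Adj i j
        · rw [hM.2.2 i j hadj, hA.2.2 i j hadj]
        · rw [hK j i (Ne.symm hij) (fun h => hadj h.symm), mul_zero, mul_zero]
    rw [h1, hAK, Matrix.trace_one]
  have hBdet : B.det * B.det = K.det := by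
    rw [hB, Matrix.det_mul, Matrix.det_conjTranspose]; simp
  have hKdet : K.det * A.det = 1 := by rw [← Matrix.det_mul, hKA, Matrix.det_one]
  have hBunit : IsUnit B := by
    rw [Matrix.isUnit_iff_isUnit_det, isUnit_iff_ne_zero]
    intro h0
    rw [h0] at hBdet
    rw [← hBdet] at hKdet
    simp at hKdet
  have key : ∀ M ∈ Feasible G x, (B * M * Bᴴ).det ≤ 1 ∧ ((B * M * Bᴴ).det = 1 → B * M * Bᴴ = 1) := by
    intro M hM
    apply det_le_one
    · exact hM.1.mul_mul_conjTranspose_same (Matrix.vecMul_injective_of_isUnit hBunit)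
    · rw [Matrix.trace_mul_comm, ← Matrix.mul_assoc, ← hB, Matrix.trace_mul_comm]
      exact htrace M hM
  have hdetM : ∀ M : Matrix V V ℝ, (B * M * Bᴴ).det = K.det * M.det := by
    intro M
    rw [Matrix.det_mul, Matrix.det_mul, Matrix.det_conjTranspose]
    simp only [star_trivial]
    rw [← hBdet]; ring
  have hApos : 0 < A.det := hA.1.det_pos
  have hKpos : 0 < K.det := hKpd.det_pos
  refine ⟨⟨hA, fun M hM => ?_⟩, fun M hM => ?_⟩
  · have h1 := (key M hM).1
    rw [hdetM, ← hKdet] at h1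
    exact le_of_mul_le_mul_left h1 hKpos
  · have h1 : M.det = A.det := le_antisymm (by
      have h1 := (key M hM.1).1
      rw [hdetM, ← hKdet] at h1
      exact le_of_mul_le_mul_left h1 hKpos) (hM.2 A hA)
    have h2 := (key M hM.1).2 (by rw [hdetM, h1, hKdet])
    have h3 := (key A hA).2 (by rw [hdetM, hKdet])
    have h4 : B * M * Bᴴ = B * A * Bᴴ := by rw [h2, h3]
    have hBHunit : IsUnit Bᴴ := by
      rw [Matrix.isUnit_conjTranspose]; exact hBunit
    have h5 := hBHunit.mul_right_cancel h4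
    exact hBunit.mul_left_cancel h5

/-- numbers of gadget vertices -/
def N : Fin 3 → ℕ := ![185, 222, 185]

/-- index type of gadget vertices -/
abbrev Gd := Σ t : Fin 3, Fin (N t)

/-- vertex set -/
abbrev VV := Fin 4 ⊕ Gd

/-- The graph: core vertices `0,1,2,3`, core edges `0-2` and `1-3`; every gadget vertex of type `t` is
adjacent exactly to the core vertices `t` and `t+1`. -/
def adj : VV → VV → Prop
  | Sum.inl i, Sum.inl j => (i = 0 ∧ j = 2) ∨ (i = 2 ∧ j = 0) ∨ (i = 1 ∧ j = 3) ∨ (i = 3 ∧ j = 1)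
  | Sum.inl i, Sum.inr g => i = g.1.castSucc ∨ i = g.1.succ
  | Sum.inr g, Sum.inl i => i = g.1.castSucc ∨ i = g.1.succ
  | Sum.inr _, Sum.inr _ => False

def GG : SimpleGraph VV where
  Adj := adj
  symm := ⟨by
    rintro (i | g) (j | h) hij
    · simp only [adj] at hij ⊢; tauto
    · exact hij
    · exact hij
    · exact hij⟩
  loopless := ⟨by
    rintro (i | g) h
    · simp only [adj] at h
      rcases h with ⟨h1, h2⟩ | ⟨h1, h2⟩ | ⟨h1, h2⟩ | ⟨h1, h2⟩ <;> rw [h1] at h2 <;> exact absurd h2 (by decide)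
    · exact h⟩

lemma GG_connected : GG.Connected := by
  have h02 : GG.Adj (Sum.inl 0) (Sum.inl 2) := by simp [GG, adj]
  have h13 : GG.Adj (Sum.inl 1) (Sum.inl 3) := by simp [GG, adj]
  have hg : ∀ g : Gd, GG.Adj (Sum.inl g.1.castSucc) (Sum.inr g) := fun g => Or.inl rfl
  have hg' : ∀ g : Gd, GG.Adj (Sum.inl g.1.succ) (Sum.inr g) := fun g => Or.inr rfl
  have r2 : GG.Reachable (Sum.inl 0) (Sum.inl 2) := h02.reachable
  have r1 : GG.Reachable (Sum.inl 0) (Sum.inl 1) :=
    (hg ⟨0, ⟨0, by decide⟩⟩).reachable.trans (hg' ⟨0, ⟨0, by decide⟩⟩).symm.reachable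
  have r3 : GG.Reachable (Sum.inl 0) (Sum.inl 3) := r1.trans h13.reachable
  have rc : ∀ i : Fin 4, GG.Reachable (Sum.inl 0) (Sum.inl i) := by
    intro i
    fin_cases i
    · exact SimpleGraph.Reachable.refl _
    · exact r1
    · exact r2
    · exact r3
  have rall : ∀ v : VV, GG.Reachable (Sum.inl 0) v := by
    rintro (i | g)
    · exact rc i
    · exact (rc _).trans (hg g).reachable
  rw [SimpleGraph.connected_iff]
  exact ⟨fun a b => (rall a).symm.trans (rall b), ⟨Sum.inl 0⟩⟩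

/-- core covariance -/
noncomputable def M : Matrix (Fin 4) (Fin 4) ℝ :=
  !![1, 1/2, 1/10, -1/25; 1/2, 1, 1/2, 1/10; 1/10, 1/2, 1, 1/2; -1/25, 1/10, 1/2, 1]

noncomputable def Mi : Matrix (Fin 4) (Fin 4) ℝ :=
  !![25/18, -5/6, 5/18, 0; -5/6, 17/9, -1, 5/18; 5/18, -1, 17/9, -5/6; 0, 5/18, -5/6, 25/18]

lemma Mi_mul_M : Mi * M = 1 := by
  ext i j
  fin_cases i <;> fin_cases j <;> simp [Mi, M, Matrix.mul_apply, Fin.sum_univ_four] <;> norm_num

noncomputable def cf (t : Fin 3) (i : Fin 4) : ℝ := if i = t.castSucc ∨ i = t.succ then 1/15 else 0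

noncomputable def CC : Matrix Gd (Fin 4) ℝ := fun g i => cf g.1 i

noncomputable def CtC : Matrix (Fin 4) (Fin 4) ℝ :=
  !![37/45, 37/45, 0, 0; 37/45, 407/225, 222/225, 0; 0, 222/225, 407/225, 37/45; 0, 0, 37/45, 37/45]

lemma CtC_eq : CCᵀ * CC = CtC := by
  ext i j
  rw [Matrix.mul_apply]
  have h1 : ∑ g : Gd, CCᵀ i g * CC g j = ∑ t : Fin 3, (N t : ℝ) * (cf t i * cf t j) := by
    rw [Fintype.sum_sigma]
    refine Finset.sum_congr rfl (fun t _ => ?_)
    have : ∀ y : Fin (N t), CCᵀ i ⟨t, y⟩ * CC ⟨t, y⟩ j = cf t i * cf t j := fun y => rfl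
    simp only [this, Finset.sum_const, Finset.card_univ, Fintype.card_fin, nsmul_eq_mul]
  rw [h1, Fin.sum_univ_three]
  have n0 : (N 0 : ℝ) = 185 := by simp [N]
  have n1 : (N 1 : ℝ) = 222 := by simp [N]
  have n2 : (N 2 : ℝ) = 185 := by simp [N]
  rw [n0, n1, n2]
  fin_cases i <;> fin_cases j <;> simp [CtC, cf, Fin.ext_iff] <;> norm_num

/-- the covariance matrix -/
noncomputable def A : Matrix VV VV ℝ :=
  Matrix.fromBlocks M (M * CCᵀ) (CC * M) (CC * M * CCᵀ + (74/75 : ℝ) • 1)

/-- its inverse -/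
noncomputable def K : Matrix VV VV ℝ :=
  Matrix.fromBlocks (Mi + (75/74 : ℝ) • CtC) (-((75/74 : ℝ) • CCᵀ)) (-((75/74 : ℝ) • CC))
    ((75/74 : ℝ) • 1)

lemma K_mul_A : K * A = 1 := by
  rw [K, A, Matrix.fromBlocks_multiply, ← Matrix.fromBlocks_one]
  congr 1
  · rw [Matrix.add_mul, Mi_mul_M, ← CtC_eq]
    simp only [Matrix.neg_mul, Matrix.smul_mul, Matrix.mul_assoc]
    simp
  · rw [Matrix.add_mul, ← CtC_eq]
    have : Mi * (M * CCᵀ) = CCᵀ := by rw [← Matrix.mul_assoc, Mi_mul_M, Matrix.one_mul]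
    rw [this]
    simp only [Matrix.neg_mul, Matrix.smul_mul, Matrix.mul_add, Matrix.mul_smul, Matrix.mul_assoc,
      Matrix.mul_one]
    rw [smul_neg, smul_smul]
    norm_num
  · simp only [Matrix.neg_mul, Matrix.smul_mul, Matrix.mul_assoc, Matrix.one_mul]
    simp
  · simp only [Matrix.neg_mul, Matrix.smul_mul, Matrix.mul_assoc, Matrix.one_mul, Matrix.mul_add,
      smul_add, smul_smul]
    norm_num

lemma M_posDef : M.PosDef := by
  have hH : M.IsHermitian := by
    ext i j
    fin_cases i <;> fin_cases j <;> simp [M]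
  have hS : M.PosSemidef := by
    refine Matrix.posSemidef_iff_dotProduct_mulVec.mpr ⟨hH, fun x => ?_⟩
    have : star x ⬝ᵥ (M *ᵥ x) = (1) * ((1) * x 0 + (1/2) * x 1 + (1/10) * x 2 + (-1/25) * x 3) ^ 2 + (3/4) * ((1) * x 1 + (3/5) * x 2 + (4/25) * x 3) ^ 2 + (18/25) * ((1) * x 2 + (3/5) * x 3) ^ 2 + (18/25) * ((1) * x 3) ^ 2 := by
      simp [M, Matrix.mulVec, dotProduct, Fin.sum_univ_four]
      ring
    rw [this]
    positivity
  exact hS.posDef_iff_isUnit.mpr (IsUnit.of_mul_eq_one_right Mi Mi_mul_M)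

lemma A_posDef : A.PosDef := by
  have hMt : Mᴴ = M := M_posDef.isHermitian
  have hinv : M⁻¹ = Mi := Matrix.inv_eq_left_inv Mi_mul_M
  have hu : IsUnit M := IsUnit.of_mul_eq_one_right Mi Mi_mul_M
  let _ : Invertible M := hu.invertible
  have hB : CC * M = (M * CCᵀ)ᴴ := by
    rw [Matrix.conjTranspose_mul, hMt]
    simp
  have hS : A.PosSemidef := by
    unfold A
    rw [hB]
    rw [Matrix.PosDef.fromBlocks₁₁ _ _ M_posDef, ← hB]
    have : (M * CCᵀ)ᴴ * CCᵀ + (74 / 75 : ℝ) • (1 : Matrix Gd Gd ℝ) - CC * M * M⁻¹ * (M * CCᵀ)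
        = (74 / 75 : ℝ) • 1 := by
      rw [← hB, hinv, Matrix.mul_assoc (CC * M) Mi, ← Matrix.mul_assoc Mi M, Mi_mul_M,
        Matrix.one_mul]
      simp
    rw [← hB] at this
    rw [this]
    exact Matrix.PosSemidef.one.smul (by norm_num)
  exact hS.posDef_iff_isUnit.mpr (IsUnit.of_mul_eq_one_right K K_mul_A)

lemma CM_apply (g : Gd) (j : Fin 4) :
    (CC * M) g j = 1/15 * (M g.1.castSucc j + M g.1.succ j) := by
  obtain ⟨t, y⟩ := g
  rw [Matrix.mul_apply, Fin.sum_univ_four]
  simp only [CC, cf]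
  fin_cases t <;> simp [Fin.ext_iff] <;> ring

lemma CM_edge (g : Gd) (j : Fin 4) (h : j = g.1.castSucc ∨ j = g.1.succ) :
    (CC * M) g j = 1/10 := by
  rw [CM_apply]
  obtain ⟨t, y⟩ := g
  simp only at h
  rcases h with rfl | rfl
  · fin_cases t <;> simp [M] <;> norm_num
  · fin_cases t <;> simp [M] <;> norm_num

lemma A_diag (v : VV) : A v v = 1 := by
  rcases v with i | g
  · simp only [A, Matrix.fromBlocks_apply₁₁]
    fin_cases i <;> simp [M]
  · simp only [A, Matrix.fromBlocks_apply₂₂, Matrix.add_apply, Matrix.smul_apply,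
      Matrix.one_apply_eq, smul_eq_mul]
    have h1 : (CC * M * CCᵀ) g g = 1/75 := by
      rw [Matrix.mul_apply, Fin.sum_univ_four]
      simp only [CM_apply, Matrix.transpose_apply, CC, cf]
      obtain ⟨t, y⟩ := g
      fin_cases t <;> simp [Fin.ext_iff, M] <;> norm_num
    rw [h1]; norm_num

lemma A_edge (u v : VV) (h : GG.Adj u v) : A u v = 1/10 := by
  have hMt : Mᵀ = M := by
    have := M_posDef.isHermitian
    rwa [Matrix.IsHermitian, Matrix.conjTranspose_eq_transpose_of_trivial] at this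
  rcases u with i | g <;> rcases v with j | k
  · simp only [GG, adj] at h
    simp only [A, Matrix.fromBlocks_apply₁₁]
    rcases h with ⟨rfl, rfl⟩ | ⟨rfl, rfl⟩ | ⟨rfl, rfl⟩ | ⟨rfl, rfl⟩ <;> simp [M]
  · simp only [GG, adj] at h
    simp only [A, Matrix.fromBlocks_apply₁₂]
    have h2 : M * CCᵀ = (CC * M)ᵀ := by rw [Matrix.transpose_mul, hMt]
    rw [h2, Matrix.transpose_apply]
    exact CM_edge k i h
  · simp only [GG, adj] at h
    simp only [A, Matrix.fromBlocks_apply₂₁]
    exact CM_edge g j h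
  · exact absurd h (by simp [GG, adj])

lemma K_zero (u v : VV) (huv : u ≠ v) (h : ¬ GG.Adj u v) : K u v = 0 := by
  rcases u with i | g <;> rcases v with j | k
  · simp only [GG, adj] at h
    simp only [K, Matrix.fromBlocks_apply₁₁]
    have hij : i ≠ j := fun h => huv (by rw [h])
    fin_cases i <;> fin_cases j <;>
      first
        | exact absurd rfl hij
        | exact absurd (by decide) h
        | (simp [Mi, CtC]; done)
        | (simp [Mi, CtC]; norm_num)
  · simp only [GG, adj] at h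
    simp [K, CC, cf, h]
  · simp only [GG, adj] at h
    simp [K, CC, cf, h]
  · have hgk : g ≠ k := fun h => huv (by rw [h])
    simp [K, hgk]

theorem main : ∃ (V : Type) (_ : Fintype V) (_ : DecidableEq V) (G : SimpleGraph V) (x : ℝ)
    (A : Matrix V V ℝ) (u v : V), G.Connected ∧ 0 < x ∧ x < 1 ∧ IsDetMax G x A ∧
      (∀ B, IsDetMax G x B → B = A) ∧ A u v < 0 := by
  obtain ⟨h1, h2⟩ := kkt GG (1/10) A K ⟨A_posDef, A_diag, A_edge⟩ K_mul_A K_zero
  refine ⟨VV, inferInstance, inferInstance, GG, 1/10, A, Sum.inl 0, Sum.inl 3, GG_connected,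
    by norm_num, by norm_num, h1, h2, ?_⟩
  simp only [A, Matrix.fromBlocks_apply₁₁]
  simp only [M, Matrix.of_apply, Matrix.cons_val', Matrix.cons_val_zero, Matrix.cons_val_fin_one,
    Matrix.cons_val]
  norm_num

end Pool.Agent.Lib_helper96.DetMax
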